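import Pool.Agent.Helper74.FW.Basic

/-!
# Block FW-ATT: attaching an independent set of new vertices

`att G U`: the graph `G` with new vertices `z : Z`, the new vertex `z` is adjacent to the vertices in `U z`; the new vertices are
pairwise not adjacent.

PROOF of `card_att`. The cliques of `att G U` with `k + 1` vertices are of two kinds. Without new vertices: the images under
`Sum.inl` of the cliques of `G`. With a new vertex `z` (exactly one, as the new vertices are not adjacent): `insert (inr z)` of the image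
of a clique `s` of `G` with `k` vertices contained in `U z`. So `cl (att G U) (k + 1)` is the disjoint union of
`(cl G (k + 1)).map (mapEmbedding inl)` and, over `z`, of the images of `(cl G k).filter (⊆ U z)` under
`s ↦ insert (inr z) (s.map inl)` (`Finset.card_biUnion` or `Finset.card_eq_sum_card_fiberwise`); all these maps are injective.
-/

set_option autoImplicit false

namespace Pool.Agent.Helper74.FW

open Finset

/-- The adjacency of `att`. -/
def attAdj {V Z : Type} (G : SimpleGraph V) (U : Z → Set V) : V ⊕ Z → V ⊕ Z → Prop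
  | Sum.inl a, Sum.inl b => G.Adj a b
  | Sum.inl a, Sum.inr z => a ∈ U z
  | Sum.inr z, Sum.inl a => a ∈ U z
  | Sum.inr _, Sum.inr _ => False

/-- The graph `G` with new vertices `z`, adjacent to the vertices in `U z`. -/
def att {V Z : Type} (G : SimpleGraph V) (U : Z → Set V) : SimpleGraph (V ⊕ Z) where
  Adj := attAdj G U
  symm := ⟨by
    rintro (a | z) (b | z') h
    · exact SimpleGraph.Adj.symm (G := G) h
    · exact h
    · exact h
    · exact h⟩
  loopless := ⟨by
    rintro (a | z) h
    · exact G.loopless.irrefl a h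
    · exact h⟩

open Classical in
private theorem inl_mem67 {V Z : Type} (s : Finset V) (a : V) :
    (Sum.inl a : V ⊕ Z) ∈ s.map (Function.Embedding.inl : V ↪ V ⊕ Z) ↔ a ∈ s := by
  rw [Finset.mem_map]
  constructor
  · rintro ⟨b, hb, h⟩
    have : b = a := Sum.inl_injective h
    rwa [← this]
  · exact fun h => ⟨a, h, rfl⟩

private theorem inr_notMem67 {V Z : Type} (s : Finset V) (z : Z) :
    (Sum.inr z : V ⊕ Z) ∉ s.map (Function.Embedding.inl : V ↪ V ⊕ Z) := by
  rw [Finset.mem_map]
  rintro ⟨b, -, h⟩
  cases h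

open Classical in
private theorem old67 {V Z : Type} [Fintype V] [Fintype Z] (G : SimpleGraph V) (U : Z → Set V) (k : ℕ) :
    ((cl (att G U) k).filter fun s => ∀ z : Z, Sum.inr z ∉ s) =
      (cl G k).image fun s => s.map (Function.Embedding.inl : V ↪ V ⊕ Z) := by
  ext s
  rw [Finset.mem_filter, Finset.mem_image, mem_cl, SimpleGraph.isNClique_iff]
  constructor
  · rintro ⟨⟨hs, hc⟩, hz⟩
    have hst : (univ.filter fun a : V => (Sum.inl a : V ⊕ Z) ∈ s).map
        (Function.Embedding.inl : V ↪ V ⊕ Z) = s := by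
      ext x
      rcases x with a | z
      · rw [inl_mem67, Finset.mem_filter]
        exact ⟨fun h => h.2, fun h => ⟨Finset.mem_univ _, h⟩⟩
      · exact ⟨fun h => absurd h (inr_notMem67 _ z), fun h => absurd h (hz z)⟩
    refine ⟨univ.filter fun a : V => (Sum.inl a : V ⊕ Z) ∈ s, ?_, hst⟩
    rw [mem_cl, SimpleGraph.isNClique_iff]
    constructor
    · intro a ha b hb hab
      have ha' : (Sum.inl a : V ⊕ Z) ∈ s := (Finset.mem_filter.1 (Finset.mem_coe.1 ha)).2
      have hb' : (Sum.inl b : V ⊕ Z) ∈ s := (Finset.mem_filter.1 (Finset.mem_coe.1 hb)).2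
      exact hs (Finset.mem_coe.2 ha') (Finset.mem_coe.2 hb') (fun h => hab (Sum.inl_injective h))
    · rw [← hc, ← hst, Finset.card_map, hst]
  · rintro ⟨t, ht, rfl⟩
    rw [mem_cl, SimpleGraph.isNClique_iff] at ht
    refine ⟨⟨?_, by rw [Finset.card_map]; exact ht.2⟩, fun z => inr_notMem67 t z⟩
    intro x hx y hy hxy
    obtain ⟨a, ha, rfl⟩ := Finset.mem_map.1 (Finset.mem_coe.1 hx)
    obtain ⟨b, hb, rfl⟩ := Finset.mem_map.1 (Finset.mem_coe.1 hy)
    exact ht.1 (Finset.mem_coe.2 ha) (Finset.mem_coe.2 hb) (fun h => hxy (by rw [h]))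

open Classical in
private theorem new67 {V Z : Type} [Fintype V] [Fintype Z] (G : SimpleGraph V) (U : Z → Set V) (k : ℕ) (z : Z) :
    ((cl (att G U) (k + 1)).filter fun s => Sum.inr z ∈ s) =
      ((cl G k).filter fun s => ∀ x ∈ s, x ∈ U z).image
        fun s => insert (Sum.inr z) (s.map (Function.Embedding.inl : V ↪ V ⊕ Z)) := by
  ext s
  rw [Finset.mem_filter, Finset.mem_image, mem_cl, SimpleGraph.isNClique_iff]
  constructor
  · rintro ⟨⟨hs, hc⟩, hz⟩
    have hst : insert (Sum.inr z) ((univ.filter fun a : V => (Sum.inl a : V ⊕ Z) ∈ s).map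
        (Function.Embedding.inl : V ↪ V ⊕ Z)) = s := by
      ext x
      rw [Finset.mem_insert]
      rcases x with a | z'
      · rw [inl_mem67, Finset.mem_filter]
        constructor
        · rintro (h | h)
          · cases h
          · exact h.2
        · exact fun h => Or.inr ⟨Finset.mem_univ _, h⟩
      · constructor
        · rintro (h | h)
          · rw [h]; exact hz
          · exact absurd h (inr_notMem67 _ z')
        · intro h
          left
          by_contra hne
          exact hs (Finset.mem_coe.2 h) (Finset.mem_coe.2 hz) hne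
    refine ⟨univ.filter fun a : V => (Sum.inl a : V ⊕ Z) ∈ s, ?_, hst⟩
    have hmem : ∀ a ∈ (univ.filter fun a : V => (Sum.inl a : V ⊕ Z) ∈ s), (Sum.inl a : V ⊕ Z) ∈ s :=
      fun a ha => (Finset.mem_filter.1 ha).2
    rw [Finset.mem_filter, mem_cl, SimpleGraph.isNClique_iff]
    refine ⟨⟨?_, ?_⟩, ?_⟩
    · intro a ha b hb hab
      exact hs (Finset.mem_coe.2 (hmem a (Finset.mem_coe.1 ha))) (Finset.mem_coe.2 (hmem b (Finset.mem_coe.1 hb)))
        (fun h => hab (Sum.inl_injective h))
    · have h1 := congrArg Finset.card hst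
      rw [Finset.card_insert_of_notMem (inr_notMem67 _ z), Finset.card_map, hc] at h1
      omega
    · intro x hx
      exact hs (Finset.mem_coe.2 (hmem x hx)) (Finset.mem_coe.2 hz) (by simp)
  · rintro ⟨t, ht, rfl⟩
    rw [Finset.mem_filter, mem_cl, SimpleGraph.isNClique_iff] at ht
    obtain ⟨⟨h1, h2⟩, h3⟩ := ht
    refine ⟨⟨?_, ?_⟩, Finset.mem_insert_self _ _⟩
    · intro x hx y hy hxy
      rcases Finset.mem_insert.1 (Finset.mem_coe.1 hx) with rfl | hx'
      · rcases Finset.mem_insert.1 (Finset.mem_coe.1 hy) with rfl | hy'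
        · exact absurd rfl hxy
        · obtain ⟨b, hb, rfl⟩ := Finset.mem_map.1 hy'
          exact h3 b hb
      · obtain ⟨a, ha, rfl⟩ := Finset.mem_map.1 hx'
        rcases Finset.mem_insert.1 (Finset.mem_coe.1 hy) with rfl | hy'
        · exact h3 a ha
        · obtain ⟨b, hb, rfl⟩ := Finset.mem_map.1 hy'
          exact h1 (Finset.mem_coe.2 ha) (Finset.mem_coe.2 hb) (fun h => hxy (by rw [h]))
    · rw [Finset.card_insert_of_notMem (inr_notMem67 _ z), Finset.card_map, h2]

open Classical in
theorem card_att {V Z : Type} [Fintype V] [Fintype Z] (G : SimpleGraph V) (U : Z → Set V) (k : ℕ) :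
    (cl (att G U) (k + 1)).card =
      (cl G (k + 1)).card + ∑ z, ((cl G k).filter fun s => ∀ x ∈ s, x ∈ U z).card := by
  have h1 : (cl (att G U) (k + 1)).card =
      ((cl (att G U) (k + 1)).filter fun s => ∀ z : Z, Sum.inr z ∉ s).card +
        ((univ : Finset Z).biUnion fun z => (cl (att G U) (k + 1)).filter fun s => Sum.inr z ∈ s).card := by
    rw [← Finset.card_filter_add_card_filter_not (s := cl (att G U) (k + 1)) (fun s => ∀ z : Z, Sum.inr z ∉ s)]
    congr 2
    ext s
    rw [Finset.mem_filter, Finset.mem_biUnion]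
    constructor
    · rintro ⟨hs, h⟩
      push Not at h
      obtain ⟨z, hz⟩ := h
      exact ⟨z, Finset.mem_univ _, Finset.mem_filter.2 ⟨hs, hz⟩⟩
    · rintro ⟨z, -, h⟩
      obtain ⟨hs, hz⟩ := Finset.mem_filter.1 h
      exact ⟨hs, fun h' => h' z hz⟩
  rw [h1, Finset.card_biUnion, old67]
  · congr 1
    · refine Finset.card_image_of_injective _ (Finset.map_injective _)
    · refine Finset.sum_congr rfl fun z _ => ?_
      rw [new67]
      refine Finset.card_image_of_injective _ fun s t hst => ?_
      ext a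
      have h2 := Finset.ext_iff.1 hst (Sum.inl a)
      simp only [Finset.mem_insert, inl_mem67] at h2
      simpa using h2
  · intro z _ z' _ hzz
    rw [Function.onFun, Finset.disjoint_left]
    intro s hs hs'
    rw [Finset.mem_filter, mem_cl] at hs hs'
    exact hs.1.isClique (Finset.mem_coe.2 hs.2) (Finset.mem_coe.2 hs'.2)
      (fun h => hzz (Sum.inr_injective h))

end Pool.Agent.Helper74.FW
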