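import Pool.Agent.Helper74.FW.Defs

/-!
# Basic facts
-/

set_option autoImplicit false

namespace Pool.Agent.Helper74.FW

open Finset

variable {V : Type} [Fintype V] {G : SimpleGraph V}

/-- The clique sum for natural weights. -/
noncomputable def NP {V : Type} [Fintype V] (G : SimpleGraph V) (k : ℕ) (n : V → ℕ) : ℕ :=
  ∑ s ∈ cl G k, ∏ i ∈ s, n i

theorem mem_cl {k : ℕ} {s : Finset V} : s ∈ cl G k ↔ G.IsNClique k s := by
  simp [cl]

theorem cast_NP (k : ℕ) (n : V → ℕ) : (NP G k n : ℝ) = PP G k (fun i => (n i : ℝ)) := by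
  simp [NP, PP]

theorem cl_zero : cl G 0 = {∅} := by
  ext s
  rw [mem_cl, mem_singleton, SimpleGraph.isNClique_zero]

theorem PP_zero (w : V → ℝ) : PP G 0 w = 1 := by
  simp [PP, cl_zero]

theorem NP_zero (n : V → ℕ) : NP G 0 n = 1 := by
  simp [NP, cl_zero]

theorem PP_nonneg (k : ℕ) {w : V → ℝ} (hw : ∀ i, 0 ≤ w i) : 0 ≤ PP G k w :=
  Finset.sum_nonneg fun _ _ => Finset.prod_nonneg fun i _ => hw i

theorem PP_mono (k : ℕ) {w w' : V → ℝ} (hw : ∀ i, 0 ≤ w i) (h : ∀ i, w i ≤ w' i) :
    PP G k w ≤ PP G k w' :=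
  Finset.sum_le_sum fun _ _ => Finset.prod_le_prod (fun i _ => hw i) fun i _ => h i

theorem NP_mono (k : ℕ) {n n' : V → ℕ} (h : ∀ i, n i ≤ n' i) : NP G k n ≤ NP G k n' :=
  Finset.sum_le_sum fun _ _ => Finset.prod_le_prod (fun _ _ => Nat.zero_le _) fun i _ => h i

theorem card_cl (k : ℕ) : (cl G k).card = NP G k fun _ => 1 := by
  simp [NP]

theorem card_cl_eq (k : ℕ) : (cl G k).card = Nat.card {s : Finset V // G.IsNClique k s} := by
  classical
  rw [Nat.card_eq_fintype_card, Fintype.card_subtype]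
  congr 1

theorem cliqueFree_iff {k : ℕ} : G.CliqueFree k ↔ (cl G k).card = 0 := by
  rw [Finset.card_eq_zero]
  constructor
  · intro h
    ext s
    rw [mem_cl]
    simp [h s]
  · intro h s hs
    have := mem_cl.2 hs
    rw [h] at this
    simp at this

/-- The f-vector from the numbers of cliques. -/
theorem isFaceVector_of (f : List ℕ) (hf : ∀ a ∈ f, 0 < a) (hne : f ≠ []) {V : Type} [Fintype V]
    (G : SimpleGraph V) (h : ∀ k, k < f.length → (cl G (k + 1)).card = f.getD k 0)
    (hG : G.CliqueFree (f.length + 1)) : FV.IsFaceVector f := by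
  classical
  have hpos : 0 < f.length := List.length_pos_iff.2 hne
  refine ⟨hf, V, inferInstance, ?_, G, fun k => ?_⟩
  · by_contra hcon
    rw [not_nonempty_iff] at hcon
    have h1 := h 0 hpos
    have h2 : cl G 1 = ∅ := by
      ext s
      rw [mem_cl, SimpleGraph.isNClique_iff]
      constructor
      · rintro ⟨-, hs⟩
        obtain ⟨a, -⟩ := Finset.card_pos.1 (by omega : 0 < s.card)
        exact hcon.elim a
      · intro hs
        simp at hs
    rw [zero_add, h2, Finset.card_empty] at h1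
    have h3 : 0 < f.getD 0 0 := by
      rw [List.getD_eq_getElem _ _ hpos]
      exact hf _ (List.getElem_mem hpos)
    omega
  · rw [← card_cl_eq]
    by_cases hk : k < f.length
    · exact h k hk
    · rw [List.getD_eq_default _ _ (by omega), ← cliqueFree_iff]
      exact hG.mono (by omega)

end Pool.Agent.Helper74.FW
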