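import Pool.Agent.Helper74.FW.Basic

/-!
# Block FW-BLOW: cliques of blow-ups

`blow H n`: the vertex `i` of `H` is replaced by `n i` copies. `card_box`: the number of cliques with `k` vertices which
consist of copies with a number below `b i` is `NP H k b`.

PROOF. Use `Finset.card_eq_sum_card_fiberwise` for the map `T ↦ T.image Sigma.fst` from the cliques in question to `cl H k` (two
adjacent vertices have different, adjacent first coordinates, so `Sigma.fst` is injective on a clique `T` and the image is a
clique with `k` vertices). The fiber over `s` has `∏ i ∈ s, b i` elements: it is the image of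
`s.pi (fun i => (univ : Finset (Fin (n i))).filter (fun a => a.1 < b i))` under `f ↦ s.attach.image (fun i => ⟨i, f i i.2⟩)`, which is
injective (`Finset.card_bij` or `Finset.card_nbij`), and `(univ.filter fun a : Fin (n i) => a.1 < b i).card = b i` as `b i ≤ n i`.
-/

set_option autoImplicit false

namespace Pool.Agent.Helper74.FW

open Finset

/-- The blow-up of `H`: the vertex `i` is replaced by `n i` copies. -/
def blow {V : Type} (H : SimpleGraph V) (n : V → ℕ) : SimpleGraph (Σ i : V, Fin (n i)) where
  Adj x y := H.Adj x.1 y.1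
  symm := ⟨fun _ _ h => SimpleGraph.Adj.symm h⟩
  loopless := ⟨fun x h => H.loopless.irrefl x.1 h⟩

private theorem card_lt {n b : ℕ} (h : b ≤ n) :
    ((univ : Finset (Fin n)).filter fun a => a.1 < b).card = b := by
  rw [Fin.card_filter_val_lt, min_eq_right h]

open Classical in
private theorem fst_ne {V : Type} {H : SimpleGraph V} {n : V → ℕ} {T : Finset (Σ i : V, Fin (n i))}
    (hT : (blow H n).IsClique T) {x y : Σ i : V, Fin (n i)} (hx : x ∈ T) (hy : y ∈ T)
    (h : x.1 = y.1) : x = y := by
  by_contra hne
  have h1 : H.Adj x.1 y.1 := hT hx hy hne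
  rw [h] at h1
  exact H.loopless.irrefl _ h1

open Classical in
theorem card_box {V : Type} [Fintype V] (H : SimpleGraph V) (n b : V → ℕ) (hb : ∀ i, b i ≤ n i)
    (k : ℕ) :
    ((cl (blow H n) k).filter fun s => ∀ x ∈ s, x.2.1 < b x.1).card = NP H k b := by
  rw [Finset.card_eq_sum_card_fiberwise (f := fun T => T.image Sigma.fst) (t := cl H k)]
  · unfold NP
    refine Finset.sum_congr rfl fun s hs => ?_
    have hsc := mem_cl.1 hs
    have e1 : ∏ i ∈ s, b i =
        (s.pi fun i => (univ : Finset (Fin (n i))).filter fun a => a.1 < b i).card := by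
      rw [Finset.card_pi]
      exact Finset.prod_congr rfl fun i _ => (card_lt (hb i)).symm
    rw [e1]
    symm
    refine Finset.card_bij
      (fun f _ => s.attach.image fun j => (⟨j.1, f j.1 j.2⟩ : Σ i : V, Fin (n i))) ?_ ?_ ?_
    · intro f hf
      rw [Finset.mem_pi] at hf
      rw [Finset.mem_filter, Finset.mem_filter, mem_cl, SimpleGraph.isNClique_iff]
      refine ⟨⟨⟨?_, ?_⟩, ?_⟩, ?_⟩
      · intro x hx y hy hxy
        rw [Finset.mem_coe, Finset.mem_image] at hx hy
        obtain ⟨j, -, rfl⟩ := hx
        obtain ⟨l, -, rfl⟩ := hy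
        change H.Adj j.1 l.1
        refine hsc.isClique j.2 l.2 fun h => hxy ?_
        have h' : j = l := Subtype.ext h
        rw [h']
      · rw [Finset.card_image_of_injective, Finset.card_attach, hsc.card_eq]
        intro j l h
        exact Subtype.ext (congrArg Sigma.fst h)
      · intro x hx
        rw [Finset.mem_image] at hx
        obtain ⟨j, -, rfl⟩ := hx
        exact (Finset.mem_filter.1 (hf j.1 j.2)).2
      · rw [Finset.image_image]
        exact Finset.attach_image_val
    · intro f _ g _ h
      funext j hj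
      have h1 : (⟨j, f j hj⟩ : Σ i : V, Fin (n i)) ∈
          s.attach.image fun l => (⟨l.1, f l.1 l.2⟩ : Σ i : V, Fin (n i)) :=
        Finset.mem_image.2 ⟨⟨j, hj⟩, Finset.mem_attach _ _, rfl⟩
      have h : (s.attach.image fun l => (⟨l.1, f l.1 l.2⟩ : Σ i : V, Fin (n i))) =
        s.attach.image fun l => (⟨l.1, g l.1 l.2⟩ : Σ i : V, Fin (n i)) := h
      rw [h, Finset.mem_image] at h1
      obtain ⟨⟨l, hl⟩, -, h2⟩ := h1
      have h3 : l = j := congrArg Sigma.fst h2
      subst h3
      exact (eq_of_heq (Sigma.mk.inj h2).2).symm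
    · intro T hT
      rw [Finset.mem_filter, Finset.mem_filter, mem_cl] at hT
      obtain ⟨⟨hT1, hT2⟩, hT3⟩ := hT
      have h1 : ∀ j ∈ s, ∃ a : Fin (n j), (⟨j, a⟩ : Σ i : V, Fin (n i)) ∈ T := by
        intro j hj
        rw [← hT3, Finset.mem_image] at hj
        obtain ⟨⟨j', a⟩, hx, rfl⟩ := hj
        exact ⟨a, hx⟩
      choose f hf using h1
      refine ⟨f, ?_, ?_⟩
      · rw [Finset.mem_pi]
        intro j hj
        exact Finset.mem_filter.2 ⟨Finset.mem_univ _, hT2 _ (hf j hj)⟩
      · ext x
        rw [Finset.mem_image]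
        constructor
        · rintro ⟨j, -, rfl⟩
          exact hf j.1 j.2
        · intro hx
          have hxs : x.1 ∈ s := by
            rw [← hT3]
            exact Finset.mem_image_of_mem _ hx
          exact ⟨⟨x.1, hxs⟩, Finset.mem_attach _ _, fst_ne hT1.isClique (hf _ hxs) hx rfl⟩
  · intro T hT
    rw [Finset.mem_coe, Finset.mem_filter, mem_cl] at hT
    obtain ⟨hT1, -⟩ := hT
    rw [Finset.mem_coe, mem_cl, SimpleGraph.isNClique_iff]
    refine ⟨?_, ?_⟩
    · intro i hi j hj hij
      rw [Finset.mem_coe, Finset.mem_image] at hi hj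
      obtain ⟨x, hx, rfl⟩ := hi
      obtain ⟨y, hy, rfl⟩ := hj
      exact hT1.isClique hx hy fun h => hij (by rw [h])
    · rw [Finset.card_image_of_injOn, hT1.card_eq]
      intro x hx y hy h
      exact fst_ne hT1.isClique hx hy h

theorem card_blow {V : Type} [Fintype V] (H : SimpleGraph V) (n : V → ℕ) (k : ℕ) :
    (cl (blow H n) k).card = NP H k n := by
  classical
  rw [← card_box H n n (fun _ => le_rfl) k]
  congr 1
  rw [Finset.filter_true_of_mem]
  intro s _ x _
  exact x.2.2

end Pool.Agent.Helper74.FW
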