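import Mathlib

/-!
# Block FW-CON: the constants

Only real numbers. PROOF. Define `A` by downward recursion: `A j = 0` for `j ≥ d`, and for `j < d`
`A j = (∑ k ∈ Ioc j d, 3 * k * (1 + A k * (2 ^ (R + 1) + (2 * A k) ^ d) + R * (2 ^ (R + 1) + (2 * A' (k - 1)) ^ d))) ^ j`, where `A' i = A i` for `i > j` and `A' j = 0`
(in Lean: show by induction on `e` that there is an `A` for which the claim holds for all `j ≥ d - e`; the claim for `j` uses only the `A k`
with `k ≥ j`; use `Function.update`). Write `B k = 2 ^ (R + 1) + (2 * A k) ^ d`.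
(1) `F k ≤ B k * F j ^ (k / j)` for `j < k ≤ d`: if `F k < (2 * A k) ^ d` this holds as `1 ≤ F j ^ (k / j)`; otherwise `2 * A k ≤ F k ^ (1 / d)`, so
`A k * F k ^ (1 - 1 / d) ≤ F k / 2` and `F k ≤ 2 * (F k - A k * F k ^ (1 - 1 / d)) ≤ 2 ^ (R + 1) * F j ^ (k / j)` by the hypothesis.
(2) Let `x = F j ≥ 1`. For `j < k ≤ d`: `A k * F k ^ (1 - 1/d) ≤ A k * B k * x ^ ((k / j) * (1 - 1 / d))` (`B k ≥ 1`), and
`R * F (k - 1) ≤ R * B' (k - 1) * x ^ ((k - 1) / j)` (for `k - 1 = j` with `B' = 1 ≤ 2 ^ (R + 1)`), and `(k - 1) / j ≤ (k / j) * (1 - 1 / d)` since `k ≤ d`. So the sum is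
at most `C k * x ^ ((k / j) * (1 - 1 / d))` with `C k = A k * B k + R * B' (k - 1)`, its power with the exponent `1 / k` is at most
`(1 + C k) * x ^ ((1 - 1 / d) / j)`. Sum over `k` and take the `j`-th power.
-/

set_option autoImplicit false

namespace Pool.Agent.Helper74.FW

open Finset

private theorem step86 (d R : ℕ) (hd : 1 ≤ d) (A : ℕ → ℝ) (hA : ∀ j, 0 ≤ A j) (j : ℕ)
    (hj : 1 ≤ j) :
    ∃ a : ℝ, 0 ≤ a ∧ ∀ F : ℕ → ℝ, (∀ i, 1 ≤ F i) →
        (∀ k, j < k → k ≤ d →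
          F k - A k * F k ^ (1 - 1 / (d : ℝ)) ≤ 2 ^ R * F j ^ ((k : ℝ) / j)) →
        (∑ k ∈ Ioc j d, 3 * (k : ℝ) *
          (A k * F k ^ (1 - 1 / (d : ℝ)) + R * F (k - 1)) ^ (1 / (k : ℝ))) ^ j ≤
            a * F j ^ (1 - 1 / (d : ℝ)) := by
  have hd0 : (0 : ℝ) < d := by exact_mod_cast hd
  have hd1 : (1 : ℝ) ≤ d := by exact_mod_cast hd
  have hj0 : (0 : ℝ) < j := by exact_mod_cast hj
  have hdinv : 1 / (d : ℝ) ≤ 1 := by
    rw [div_le_one hd0]
    exact hd1
  have he0 : 0 ≤ 1 - 1 / (d : ℝ) := by linarith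
  have he1 : 1 - 1 / (d : ℝ) ≤ 1 := by
    have : 0 < 1 / (d : ℝ) := by positivity
    linarith
  set B : ℕ → ℝ := fun k => 2 ^ (R + 1) + (2 * A k) ^ d with hB
  have hpow1 : (1 : ℝ) ≤ 2 ^ (R + 1) := one_le_pow₀ (by norm_num)
  have hAd : ∀ k, 0 ≤ (2 * A k) ^ d := fun k => pow_nonneg (by have := hA k; linarith) d
  have hB1 : ∀ k, 1 ≤ B k := fun k => by
    have := hAd k
    simp only [hB]
    linarith
  set C : ℕ → ℝ := fun k => A k * B k + R * B (k - 1) with hC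
  have hC0 : ∀ k, 0 ≤ C k := fun k => by
    have h1 := mul_nonneg (hA k) (zero_le_one.trans (hB1 k))
    have h2 : 0 ≤ (R : ℝ) * B (k - 1) := mul_nonneg (Nat.cast_nonneg R) (zero_le_one.trans (hB1 _))
    simp only [hC]
    linarith
  refine ⟨(∑ k ∈ Ioc j d, 3 * (k : ℝ) * (1 + C k)) ^ j, ?_, ?_⟩
  · apply pow_nonneg
    exact Finset.sum_nonneg fun k _ => mul_nonneg (by positivity) (by have := hC0 k; linarith)
  intro F hF hyp
  set x := F j with hx
  have hx1 : 1 ≤ x := hF j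
  have hx0 : 0 < x := zero_lt_one.trans_le hx1
  have hbound : ∀ k, j < k → k ≤ d → F k ≤ B k * x ^ ((k : ℝ) / j) := by
    intro k hjk hkd
    have hy1 : 1 ≤ F k := hF k
    have hy0 : 0 < F k := zero_lt_one.trans_le hy1
    have hxk : 1 ≤ x ^ ((k : ℝ) / j) := Real.one_le_rpow hx1 (by positivity)
    by_cases hc : F k < (2 * A k) ^ d
    · have h1 : F k ≤ B k := by
        have : (0 : ℝ) ≤ 2 ^ (R + 1) := by positivity
        simp only [hB]
        linarith
      calc F k ≤ B k := h1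
        _ ≤ B k * x ^ ((k : ℝ) / j) := le_mul_of_one_le_right (zero_le_one.trans (hB1 k)) hxk
    · push Not at hc
      have h1 : 2 * A k ≤ F k ^ (1 / (d : ℝ)) := by
        have h2 := Real.rpow_le_rpow (hAd k) hc (by positivity : 0 ≤ 1 / (d : ℝ))
        have h3 : ((2 * A k) ^ d) ^ (1 / (d : ℝ)) = 2 * A k := by
          rw [one_div]
          exact Real.pow_rpow_inv_natCast (by have := hA k; linarith) (by omega)
        rwa [h3] at h2
      have h4 : A k * F k ^ (1 - 1 / (d : ℝ)) ≤ F k / 2 := by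
        have h5 : F k ^ (1 / (d : ℝ)) * F k ^ (1 - 1 / (d : ℝ)) = F k := by
          rw [← Real.rpow_add hy0]
          have : 1 / (d : ℝ) + (1 - 1 / (d : ℝ)) = 1 := by ring
          rw [this, Real.rpow_one]
        have h6 := mul_le_mul_of_nonneg_right h1 (Real.rpow_nonneg hy0.le (1 - 1 / (d : ℝ)))
        rw [h5] at h6
        linarith
      have h7 := hyp k hjk hkd
      have h8 : F k ≤ 2 ^ (R + 1) * x ^ ((k : ℝ) / j) := by
        rw [pow_succ]
        linarith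
      calc F k ≤ 2 ^ (R + 1) * x ^ ((k : ℝ) / j) := h8
        _ ≤ B k * x ^ ((k : ℝ) / j) := by
          apply mul_le_mul_of_nonneg_right _ (zero_le_one.trans hxk)
          have := hAd k
          simp only [hB]
          linarith
  have hterm : ∀ k ∈ Ioc j d, 3 * (k : ℝ) *
      (A k * F k ^ (1 - 1 / (d : ℝ)) + R * F (k - 1)) ^ (1 / (k : ℝ)) ≤
        3 * (k : ℝ) * (1 + C k) * x ^ ((1 - 1 / (d : ℝ)) / j) := by
    intro k hk
    rw [Finset.mem_Ioc] at hk
    obtain ⟨hjk, hkd⟩ := hk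
    have hk0 : (0 : ℝ) < k := by exact_mod_cast (by omega : 0 < k)
    have hy1 : 1 ≤ F k := hF k
    have hy0 : 0 < F k := zero_lt_one.trans_le hy1
    set e : ℝ := ((k : ℝ) / j) * (1 - 1 / (d : ℝ)) with he
    have h1 : F k ^ (1 - 1 / (d : ℝ)) ≤ B k * x ^ e := by
      have h2 := Real.rpow_le_rpow hy0.le (hbound k hjk hkd) he0
      rw [Real.mul_rpow (zero_le_one.trans (hB1 k)) (Real.rpow_nonneg hx0.le _),
        ← Real.rpow_mul hx0.le] at h2
      refine h2.trans (mul_le_mul_of_nonneg_right ?_ (Real.rpow_nonneg hx0.le _))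
      calc B k ^ (1 - 1 / (d : ℝ)) ≤ B k ^ (1 : ℝ) := Real.rpow_le_rpow_of_exponent_le (hB1 k) he1
        _ = B k := Real.rpow_one _
    have h3 : F (k - 1) ≤ B (k - 1) * x ^ e := by
      have hkc : ((k - 1 : ℕ) : ℝ) = (k : ℝ) - 1 := by
        rw [Nat.cast_sub (by omega), Nat.cast_one]
      have h4 : F (k - 1) ≤ B (k - 1) * x ^ (((k - 1 : ℕ) : ℝ) / j) := by
        by_cases hjk1 : j < k - 1
        · exact hbound (k - 1) hjk1 (by omega)
        · have hkj : k - 1 = j := by omega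
          rw [hkj, div_self hj0.ne', Real.rpow_one, ← hx]
          exact le_mul_of_one_le_left hx0.le (hB1 j)
      refine h4.trans (mul_le_mul_of_nonneg_left ?_ (zero_le_one.trans (hB1 _)))
      apply Real.rpow_le_rpow_of_exponent_le hx1
      rw [hkc, he, div_mul_eq_mul_div]
      apply div_le_div_of_nonneg_right _ hj0.le
      have h5 : (k : ℝ) / d ≤ 1 := by
        rw [div_le_one hd0]
        exact_mod_cast hkd
      have h6 : (k : ℝ) * (1 - 1 / (d : ℝ)) = k - k / d := by ring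
      rw [h6]
      linarith
    have h7 : A k * F k ^ (1 - 1 / (d : ℝ)) + R * F (k - 1) ≤ C k * x ^ e := by
      have h8 := mul_le_mul_of_nonneg_left h1 (hA k)
      have h9 := mul_le_mul_of_nonneg_left h3 (Nat.cast_nonneg R : (0 : ℝ) ≤ R)
      have h10 : C k * x ^ e = A k * (B k * x ^ e) + R * (B (k - 1) * x ^ e) := by
        simp only [hC]
        ring
      rw [h10]
      linarith
    have h11 : 0 ≤ A k * F k ^ (1 - 1 / (d : ℝ)) + R * F (k - 1) := by
      have h12 := mul_nonneg (hA k) (Real.rpow_nonneg hy0.le (1 - 1 / (d : ℝ)))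
      have h13 : 0 ≤ (R : ℝ) * F (k - 1) :=
        mul_nonneg (Nat.cast_nonneg R) (zero_le_one.trans (hF _))
      linarith
    have h14 := Real.rpow_le_rpow h11 h7 (by positivity : 0 ≤ 1 / (k : ℝ))
    rw [Real.mul_rpow (hC0 k) (Real.rpow_nonneg hx0.le _), ← Real.rpow_mul hx0.le] at h14
    have h15 : e * (1 / (k : ℝ)) = (1 - 1 / (d : ℝ)) / j := by
      rw [he]
      field_simp
    rw [h15] at h14
    have h16 : C k ^ (1 / (k : ℝ)) ≤ 1 + C k := by
      have h17 : C k ^ (1 / (k : ℝ)) ≤ (1 + C k) ^ (1 / (k : ℝ)) :=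
        Real.rpow_le_rpow (hC0 k) (by linarith) (by positivity)
      have hk1 : 1 / (k : ℝ) ≤ 1 := by
        rw [div_le_one hk0]
        exact_mod_cast (by omega : 1 ≤ k)
      have h18 : (1 + C k) ^ (1 / (k : ℝ)) ≤ (1 + C k) ^ (1 : ℝ) :=
        Real.rpow_le_rpow_of_exponent_le (by have := hC0 k; linarith) hk1
      rw [Real.rpow_one] at h18
      exact h17.trans h18
    have h19 := mul_le_mul_of_nonneg_right h16 (Real.rpow_nonneg hx0.le ((1 - 1 / (d : ℝ)) / j))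
    rw [mul_assoc (3 * (k : ℝ)) (1 + C k)]
    exact mul_le_mul_of_nonneg_left (h14.trans h19) (by positivity)
  have hsum : ∑ k ∈ Ioc j d, 3 * (k : ℝ) *
      (A k * F k ^ (1 - 1 / (d : ℝ)) + R * F (k - 1)) ^ (1 / (k : ℝ)) ≤
        (∑ k ∈ Ioc j d, 3 * (k : ℝ) * (1 + C k)) * x ^ ((1 - 1 / (d : ℝ)) / j) := by
    rw [Finset.sum_mul]
    exact Finset.sum_le_sum hterm
  have hsum0 : 0 ≤ ∑ k ∈ Ioc j d, 3 * (k : ℝ) *
      (A k * F k ^ (1 - 1 / (d : ℝ)) + R * F (k - 1)) ^ (1 / (k : ℝ)) := by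
    refine Finset.sum_nonneg fun k _ => mul_nonneg (by positivity) (Real.rpow_nonneg ?_ _)
    have h12 := mul_nonneg (hA k) (Real.rpow_nonneg (zero_le_one.trans (hF k)) (1 - 1 / (d : ℝ)))
    have h13 : 0 ≤ (R : ℝ) * F (k - 1) :=
      mul_nonneg (Nat.cast_nonneg R) (zero_le_one.trans (hF _))
    linarith
  refine (pow_le_pow_left₀ hsum0 hsum j).trans (le_of_eq ?_)
  rw [mul_pow, ← Real.rpow_natCast (x ^ ((1 - 1 / (d : ℝ)) / j)) j, ← Real.rpow_mul hx0.le,
    div_mul_cancel₀ _ hj0.ne']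

private theorem rec86 (d R : ℕ) (hd : 1 ≤ d) (e : ℕ) :
    ∃ A : ℕ → ℝ, (∀ j, 0 ≤ A j) ∧ A d = 0 ∧
      ∀ j, 1 ≤ j → j < d → d ≤ j + e → ∀ F : ℕ → ℝ, (∀ i, 1 ≤ F i) →
        (∀ k, j < k → k ≤ d →
          F k - A k * F k ^ (1 - 1 / (d : ℝ)) ≤ 2 ^ R * F j ^ ((k : ℝ) / j)) →
        (∑ k ∈ Ioc j d, 3 * (k : ℝ) *
          (A k * F k ^ (1 - 1 / (d : ℝ)) + R * F (k - 1)) ^ (1 / (k : ℝ))) ^ j ≤
            A j * F j ^ (1 - 1 / (d : ℝ)) := by
  induction e with
  | zero => exact ⟨fun _ => 0, fun _ => le_rfl, rfl, fun j _ h1 h2 => by omega⟩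
  | succ e ih =>
    obtain ⟨A, hA, hAd, hP⟩ := ih
    by_cases h : 1 ≤ d - (e + 1)
    · set j0 := d - (e + 1) with hj0
      obtain ⟨a, ha, hstep⟩ := step86 d R hd A hA j0 h
      have hne : ∀ k, j0 < k → Function.update A j0 a k = A k := fun k hk =>
        Function.update_of_ne (by omega) _ _
      refine ⟨Function.update A j0 a, fun j => ?_, ?_, ?_⟩
      · by_cases hj : j = j0
        · rw [hj, Function.update_self]
          exact ha
        · rw [Function.update_of_ne hj]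
          exact hA j
      · rw [hne d (by omega)]
        exact hAd
      · intro j hj hjd hde F hF hyp
        have hjj : j0 ≤ j := by omega
        have e1 : ∑ k ∈ Ioc j d, 3 * (k : ℝ) *
            (Function.update A j0 a k * F k ^ (1 - 1 / (d : ℝ)) + R * F (k - 1)) ^ (1 / (k : ℝ)) =
            ∑ k ∈ Ioc j d, 3 * (k : ℝ) *
            (A k * F k ^ (1 - 1 / (d : ℝ)) + R * F (k - 1)) ^ (1 / (k : ℝ)) := by
          refine Finset.sum_congr rfl fun k hk => ?_
          rw [Finset.mem_Ioc] at hk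
          rw [hne k (by omega)]
        have hyp' : ∀ k, j < k → k ≤ d →
            F k - A k * F k ^ (1 - 1 / (d : ℝ)) ≤ 2 ^ R * F j ^ ((k : ℝ) / j) := by
          intro k hk1 hk2
          have := hyp k hk1 hk2
          rwa [hne k (by omega)] at this
        rw [e1]
        by_cases hj' : j = j0
        · rw [hj', Function.update_self]
          rw [hj'] at hyp'
          exact hstep F hF hyp'
        · rw [hne j (by omega)]
          exact hP j hj hjd (by omega) F hF hyp'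
    · refine ⟨A, hA, hAd, fun j hj hjd hde => hP j hj hjd (by omega)⟩

theorem exists_const (d R : ℕ) (hd : 1 ≤ d) :
    ∃ A : ℕ → ℝ, (∀ j, 0 ≤ A j) ∧ A d = 0 ∧
      ∀ j, 1 ≤ j → j < d → ∀ F : ℕ → ℝ, (∀ i, 1 ≤ F i) →
        (∀ k, j < k → k ≤ d →
          F k - A k * F k ^ (1 - 1 / (d : ℝ)) ≤ 2 ^ R * F j ^ ((k : ℝ) / j)) →
        (∑ k ∈ Ioc j d, 3 * (k : ℝ) *
          (A k * F k ^ (1 - 1 / (d : ℝ)) + R * F (k - 1)) ^ (1 / (k : ℝ))) ^ j ≤
            A j * F j ^ (1 - 1 / (d : ℝ)) := by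
  obtain ⟨A, h1, h2, h3⟩ := rec86 d R hd d
  exact ⟨A, h1, h2, fun j hj hjd => h3 j hj hjd (by omega)⟩

end Pool.Agent.Helper74.FW
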