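import Pool.Agent.Helper74.FV.Defs

/-!
# f-vectors of clique complexes in all dimensions: the definitions
-/

set_option autoImplicit false

namespace Pool.Agent.Helper74.FW

open Finset

open Classical in
/-- The cliques with `k` vertices of a finite graph. -/
noncomputable def cl {V : Type} [Fintype V] (G : SimpleGraph V) (k : ℕ) : Finset (Finset V) :=
  univ.filter fun s => G.IsNClique k s

/-- The sum over the cliques with `k` vertices of the products of the weights of the vertices. -/
noncomputable def PP {V : Type} [Fintype V] (G : SimpleGraph V) (k : ℕ) (w : V → ℝ) : ℝ :=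
  ∑ s ∈ cl G k, ∏ i ∈ s, w i

/-- The region `R_d`: all vectors `(P_1(w), ..., P_d(w))` of a graph `H` without `K_{d+1}` on
`(2 d choose d)` vertices with nonnegative weights `w`, where `P_k(w)` is the sum over the cliques
with `k` vertices of the products of the weights. -/
def region (d : ℕ) : Set (Fin d → ℝ) :=
  {x | ∃ (H : SimpleGraph (Fin ((2 * d).choose d))) (w : Fin ((2 * d).choose d) → ℝ),
    H.CliqueFree (d + 1) ∧ (∀ i, 0 ≤ w i) ∧ ∀ k : Fin d, x k = PP H (k.1 + 1) w}

end Pool.Agent.Helper74.FW
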