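import Pool.Agent.Helper74.FW.Basic

/-!
# Block FW-DIG: mixed radix expansions by boxes

PROOF of `exists_boxes_lt`, by `Finset.induction_on K` (for all `r`). `K = ∅`: `r = 0`, `L = []`. `insert a K` (`a ∉ K`): let `M = ∏ i ∈ K, n i`,
`c = r / M < n a`, `r' = r % M < M`, and `L'` the list for `K` and `r'`. Then
`L = (fun i => if i = a then c else if i ∈ K then n i else 0) :: L'.map (fun b => fun i => if i = a then 1 else b i)`:
the first box contributes `c * M`, the others `r'` (the product over `insert a K` of the changed box is `1 * ∏ i ∈ K, b i`; `1 ≤ n a`).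
`exists_boxes`: `r / M` times the box `fun i => if i ∈ K then n i else 0`, and the list for `r % M` (`M > 0`).
-/

set_option autoImplicit false

namespace Pool.Agent.Helper74.FW

open Finset

theorem exists_boxes_lt {V : Type} [DecidableEq V] (K : Finset V) (n : V → ℕ)
    (hn : ∀ i ∈ K, 1 ≤ n i) (r : ℕ) (hr : r < ∏ i ∈ K, n i) :
    ∃ L : List (V → ℕ), L.length ≤ K.card ∧
      (∀ b ∈ L, (∀ i, b i ≤ n i) ∧ ∀ i, i ∉ K → b i = 0) ∧
      (L.map fun b => ∏ i ∈ K, b i).sum = r := by
  induction K using Finset.induction_on generalizing r with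
  | empty =>
    refine ⟨[], by simp, by simp, ?_⟩
    rw [Finset.prod_empty] at hr
    simp
    omega
  | insert a K ha ih =>
    have hn' : ∀ i ∈ K, 1 ≤ n i := fun i hi => hn i (Finset.mem_insert_of_mem hi)
    have hna : 1 ≤ n a := hn a (Finset.mem_insert_self a K)
    have hM : 0 < ∏ i ∈ K, n i := Finset.prod_pos fun i hi => hn' i hi
    rw [Finset.prod_insert ha] at hr
    set M := ∏ i ∈ K, n i with hMdef
    obtain ⟨L, h1, h2, h3⟩ := ih hn' (r % M) (Nat.mod_lt _ hM)
    have hc : r / M < n a := Nat.div_lt_of_lt_mul (by rwa [mul_comm] at hr)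
    refine ⟨(fun i => if i = a then r / M else if i ∈ K then n i else 0) ::
      L.map (fun b => fun i => if i = a then 1 else b i), ?_, ?_, ?_⟩
    · rw [List.length_cons, List.length_map, Finset.card_insert_of_notMem ha]
      omega
    · intro b hb
      rw [List.mem_cons] at hb
      rcases hb with rfl | hb
      · refine ⟨fun i => ?_, fun i hi => ?_⟩
        · by_cases hia : i = a
          · simp only [if_pos hia]
            rw [hia]
            exact hc.le
          · by_cases hiK : i ∈ K
            · simp only [if_neg hia, if_pos hiK]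
              exact le_rfl
            · simp only [if_neg hia, if_neg hiK]
              exact Nat.zero_le _
        · rw [Finset.mem_insert] at hi
          push Not at hi
          simp only [if_neg hi.1, if_neg hi.2]
      · rw [List.mem_map] at hb
        obtain ⟨b', hb', rfl⟩ := hb
        obtain ⟨h4, h5⟩ := h2 b' hb'
        refine ⟨fun i => ?_, fun i hi => ?_⟩
        · by_cases hia : i = a
          · simp only [if_pos hia]
            rw [hia]
            exact hna
          · simp only [if_neg hia]
            exact h4 i
        · rw [Finset.mem_insert] at hi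
          push Not at hi
          simp only [if_neg hi.1]
          exact h5 i hi.2
    · rw [List.map_cons, List.sum_cons, List.map_map]
      have e1 : ∏ i ∈ insert a K, (if i = a then r / M else if i ∈ K then n i else 0) = r / M * M := by
        rw [Finset.prod_insert ha, if_pos rfl, hMdef]
        congr 1
        refine Finset.prod_congr rfl fun i hi => ?_
        rw [if_neg (show i ≠ a from fun h => ha (h ▸ hi)), if_pos hi]
      have e2 : ((fun b : V → ℕ => ∏ i ∈ insert a K, b i) ∘ fun (b : V → ℕ) => fun i => if i = a then 1 else b i) =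
          fun b : V → ℕ => ∏ i ∈ K, b i := by
        funext b
        simp only [Function.comp]
        rw [Finset.prod_insert ha, if_pos rfl, one_mul]
        refine Finset.prod_congr rfl fun i hi => ?_
        rw [if_neg (show i ≠ a from fun h => ha (h ▸ hi))]
      rw [e1, e2, h3]
      exact Nat.div_add_mod' r M

theorem exists_boxes {V : Type} [DecidableEq V] (K : Finset V) (n : V → ℕ)
    (hn : ∀ i ∈ K, 1 ≤ n i) (r : ℕ) :
    ∃ L : List (V → ℕ), L.length ≤ r / (∏ i ∈ K, n i) + K.card ∧
      (∀ b ∈ L, (∀ i, b i ≤ n i) ∧ ∀ i, i ∉ K → b i = 0) ∧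
      (L.map fun b => ∏ i ∈ K, b i).sum = r := by
  have hM : 0 < ∏ i ∈ K, n i := Finset.prod_pos fun i hi => hn i hi
  set M := ∏ i ∈ K, n i with hMdef
  obtain ⟨L, h1, h2, h3⟩ := exists_boxes_lt K n hn (r % M) (Nat.mod_lt _ hM)
  refine ⟨List.replicate (r / M) (fun i => if i ∈ K then n i else 0) ++ L, ?_, ?_, ?_⟩
  · rw [List.length_append, List.length_replicate]
    omega
  · intro b hb
    rw [List.mem_append] at hb
    rcases hb with hb | hb
    · rw [List.mem_replicate] at hb
      obtain ⟨-, rfl⟩ := hb
      refine ⟨fun i => ?_, fun i hi => ?_⟩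
      · by_cases hiK : i ∈ K
        · simp only [if_pos hiK]
          exact le_rfl
        · simp only [if_neg hiK]
          exact Nat.zero_le _
      · simp only [if_neg hi]
    · exact h2 b hb
  · rw [List.map_append, List.sum_append, List.map_replicate, List.sum_replicate, h3]
    have e1 : ∏ i ∈ K, (if i ∈ K then n i else 0) = M := by
      rw [hMdef]
      exact Finset.prod_congr rfl fun i hi => if_pos hi
    rw [e1, smul_eq_mul]
    exact Nat.div_add_mod' r M

end Pool.Agent.Helper74.FW
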