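import Pool.Agent.Helper74.FW.Basic

/-!
# Block FW-FLO: rounding down the weights

PROOF. `floor_le`: `cast_NP`, `PP_mono`, `Nat.floor_le`. `floor_ge`: with `n i = ⌊w i⌋₊` we have `0 ≤ n i ≤ w i ≤ n i + 1`. For each clique `s`,
`∏ i ∈ s, w i ≤ ∏ i ∈ s, n i + ∑ i ∈ s, ∏ j ∈ s.erase i, w j` (induction on `s`). Sum over the cliques `s` with `k + 1` vertices and exchange the
sums: `∑_i ∑_{s ∋ i} ∏ j ∈ s.erase i, w j`; for fixed `i` the sets `s.erase i` are different cliques with `k` vertices, so the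
inner sum is at most `PP H k w`. `exists_clique`: among the at most `2 ^ card V` cliques with `k` vertices take one with the
largest product (`Finset.exists_max_image`; `Finset.sum_le_card_nsmul`).
`PP_le_rpow`: for a clique `K` with `k` vertices and `P = ∏ i ∈ K, w i` we claim that there is `J ⊆ K` with `j` vertices and
`P ^ (j / k) ≤ ∏ i ∈ J, w i`: by induction on `k - j` it suffices to remove one vertex: if `w i` is minimal on `K` then
`w i ^ k ≤ P`, so `∏ K.erase i = P / w i ≥ P ^ (1 - 1 / k)` (if `P = 0` trivial). `J` is a clique, so `∏ i ∈ J, w i ≤ PP H j w`, `P ≤ (PP H j w) ^ (k / j)`;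
sum over the at most `2 ^ card V` cliques.
-/

set_option autoImplicit false

namespace Pool.Agent.Helper74.FW

open Finset

variable {V : Type} [Fintype V] (H : SimpleGraph V)

theorem floor_le (w : V → ℝ) (hw : ∀ i, 0 ≤ w i) (k : ℕ) :
    (NP H k (fun i => ⌊w i⌋₊) : ℝ) ≤ PP H k w := by
  rw [cast_NP]
  exact PP_mono k (fun i => Nat.cast_nonneg _) fun i => Nat.floor_le (hw i)

private theorem prod_le_fl {V : Type} [DecidableEq V] (w n : V → ℝ) (h0 : ∀ i, 0 ≤ n i)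
    (h1 : ∀ i, n i ≤ w i) (h2 : ∀ i, w i ≤ n i + 1) (s : Finset V) :
    ∏ i ∈ s, w i ≤ ∏ i ∈ s, n i + ∑ i ∈ s, ∏ j ∈ s.erase i, w j := by
  have hw : ∀ i, 0 ≤ w i := fun i => (h0 i).trans (h1 i)
  induction s using Finset.induction_on with
  | empty => simp
  | insert a s ha ih =>
    rw [Finset.prod_insert ha, Finset.prod_insert ha, Finset.sum_insert ha, Finset.erase_insert ha]
    have h3 : ∑ i ∈ s, ∏ j ∈ (insert a s).erase i, w j = w a * ∑ i ∈ s, ∏ j ∈ s.erase i, w j := by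
      rw [Finset.mul_sum]
      refine Finset.sum_congr rfl fun i hi => ?_
      have hia : a ≠ i := fun h => ha (h ▸ hi)
      rw [Finset.erase_insert_of_ne hia, Finset.prod_insert fun h => ha (Finset.mem_of_mem_erase h)]
    rw [h3]
    have h4 : 0 ≤ ∑ i ∈ s, ∏ j ∈ s.erase i, w j :=
      Finset.sum_nonneg fun _ _ => Finset.prod_nonneg fun j _ => hw j
    have h5 : 0 ≤ ∏ i ∈ s, w i := Finset.prod_nonneg fun j _ => hw j
    have h6 := mul_le_mul_of_nonneg_left ih (h0 a)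
    have h7 := mul_le_mul_of_nonneg_right (h2 a) h5
    have h8 := mul_le_mul_of_nonneg_right (h1 a) h4
    nlinarith [h6, h7, h8]

private theorem card_cl_le (k : ℕ) : (cl H k).card ≤ 2 ^ Fintype.card V := by
  refine (Finset.card_le_univ _).trans ?_
  rw [Fintype.card_finset]

theorem floor_ge (w : V → ℝ) (hw : ∀ i, 0 ≤ w i) (k : ℕ) :
    PP H (k + 1) w ≤ NP H (k + 1) (fun i => ⌊w i⌋₊) + Fintype.card V * PP H k w := by
  classical
  have h1 : PP H (k + 1) w ≤ ∑ s ∈ cl H (k + 1), (∏ i ∈ s, ((⌊w i⌋₊ : ℕ) : ℝ) +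
      ∑ i ∈ s, ∏ j ∈ s.erase i, w j) :=
    Finset.sum_le_sum fun s _ => prod_le_fl w (fun i => ((⌊w i⌋₊ : ℕ) : ℝ)) (fun i => Nat.cast_nonneg _)
      (fun i => Nat.floor_le (hw i)) (fun i => (Nat.lt_floor_add_one (w i)).le) s
  refine h1.trans ?_
  rw [Finset.sum_add_distrib, cast_NP]
  refine add_le_add le_rfl ?_
  have h2 : ∑ s ∈ cl H (k + 1), ∑ i ∈ s, ∏ j ∈ s.erase i, w j =
      ∑ i : V, ∑ s ∈ (cl H (k + 1)).filter (fun s => i ∈ s), ∏ j ∈ s.erase i, w j := by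
    rw [Finset.sum_comm' (t' := univ) (s' := fun i => (cl H (k + 1)).filter (fun s => i ∈ s))]
    intro s i
    rw [Finset.mem_filter]
    simp [and_comm]
  rw [h2]
  have h3 : ∀ i : V, ∑ s ∈ (cl H (k + 1)).filter (fun s => i ∈ s), ∏ j ∈ s.erase i, w j ≤ PP H k w := by
    intro i
    have h4 : Set.InjOn (fun s : Finset V => s.erase i) ((cl H (k + 1)).filter (fun s => i ∈ s)) := by
      intro s hs t ht hst
      have hs' := (Finset.mem_filter.1 (Finset.mem_coe.1 hs)).2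
      have ht' := (Finset.mem_filter.1 (Finset.mem_coe.1 ht)).2
      rw [← Finset.insert_erase hs', ← Finset.insert_erase ht']
      exact congrArg (insert i) hst
    rw [← Finset.sum_image (f := fun t => ∏ j ∈ t, w j) h4]
    refine Finset.sum_le_sum_of_subset_of_nonneg ?_ fun _ _ _ => Finset.prod_nonneg fun j _ => hw j
    intro t ht
    obtain ⟨s, hs, rfl⟩ := Finset.mem_image.1 ht
    obtain ⟨hs1, hs2⟩ := Finset.mem_filter.1 hs
    rw [mem_cl, SimpleGraph.isNClique_iff] at hs1 ⊢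
    refine ⟨hs1.1.subset ?_, ?_⟩
    · exact_mod_cast Finset.erase_subset i s
    · rw [Finset.card_erase_of_mem hs2, hs1.2]
      rfl
  refine (Finset.sum_le_sum fun i _ => h3 i).trans ?_
  rw [Finset.sum_const, Finset.card_univ, nsmul_eq_mul]

theorem exists_clique (n : V → ℕ) (k : ℕ) (h : 0 < NP H k n) :
    ∃ K : Finset V, H.IsNClique k K ∧ NP H k n ≤ 2 ^ Fintype.card V * ∏ i ∈ K, n i := by
  have hne : (cl H k).Nonempty := by
    by_contra hcon
    rw [Finset.not_nonempty_iff_eq_empty] at hcon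
    unfold NP at h
    rw [hcon, Finset.sum_empty] at h
    exact lt_irrefl _ h
  obtain ⟨K, hK, hmax⟩ := Finset.exists_max_image (cl H k) (fun s => ∏ i ∈ s, n i) hne
  refine ⟨K, mem_cl.1 hK, ?_⟩
  refine (Finset.sum_le_card_nsmul _ _ _ hmax).trans ?_
  rw [smul_eq_mul]
  exact Nat.mul_le_mul_right _ (card_cl_le H k)

private theorem exists_sub_fl {V : Type} [DecidableEq V] (w : V → ℝ) (hw : ∀ i, 0 ≤ w i) {j : ℕ} (hj : 1 ≤ j) (m : ℕ) :
    ∀ K : Finset V, K.card = j + m → ∃ J ⊆ K, J.card = j ∧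
      (∏ i ∈ K, w i) ^ ((j : ℝ) / ((j + m : ℕ) : ℝ)) ≤ ∏ i ∈ J, w i := by
  induction m with
  | zero =>
    intro K hK
    refine ⟨K, subset_rfl, hK, ?_⟩
    have h1 : (j : ℝ) ≠ 0 := by
      have : (0 : ℝ) < j := by exact_mod_cast hj
      exact this.ne'
    rw [add_zero, div_self h1, Real.rpow_one]
  | succ m ih =>
    intro K hK
    have hne : K.Nonempty := Finset.card_pos.1 (by omega)
    obtain ⟨i, hi, hmin⟩ := Finset.exists_min_image K w hne
    have hcard : (K.erase i).card = j + m := by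
      rw [Finset.card_erase_of_mem hi, hK]
      rfl
    obtain ⟨J, hJ, hJc, hJP⟩ := ih (K.erase i) hcard
    refine ⟨J, hJ.trans (Finset.erase_subset _ _), hJc, le_trans ?_ hJP⟩
    have hP' : 0 ≤ ∏ x ∈ K.erase i, w x := Finset.prod_nonneg fun x _ => hw x
    have hP : 0 ≤ ∏ x ∈ K, w x := Finset.prod_nonneg fun x _ => hw x
    have e1 : ∏ x ∈ K, w x = w i * ∏ x ∈ K.erase i, w x := (Finset.mul_prod_erase K w hi).symm
    have e2 : w i ^ (j + m) ≤ ∏ x ∈ K.erase i, w x := by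
      rw [← hcard, ← Finset.prod_const]
      exact Finset.prod_le_prod (fun _ _ => hw i) fun x hx => hmin x (Finset.mem_of_mem_erase hx)
    have e3 : (∏ x ∈ K, w x) ^ (j + m) ≤ (∏ x ∈ K.erase i, w x) ^ (j + m + 1) := by
      rw [e1, mul_pow, pow_succ' _ (j + m)]
      exact mul_le_mul_of_nonneg_right e2 (pow_nonneg hP' _)
    have hN : (0 : ℝ) < ((j + m : ℕ) : ℝ) := by exact_mod_cast (by omega : 0 < j + m)
    have hN1 : (0 : ℝ) < ((j + (m + 1) : ℕ) : ℝ) := by exact_mod_cast (by omega : 0 < j + (m + 1))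
    have hj0 : (0 : ℝ) ≤ j := Nat.cast_nonneg _
    have e4 : (∏ x ∈ K, w x) ^ ((j : ℝ) / ((j + (m + 1) : ℕ) : ℝ)) =
        ((∏ x ∈ K, w x) ^ (j + m)) ^ ((j : ℝ) / (((j + m : ℕ) : ℝ) * ((j + (m + 1) : ℕ) : ℝ))) := by
      rw [← Real.rpow_natCast (∏ x ∈ K, w x) (j + m), ← Real.rpow_mul hP]
      congr 1
      field_simp
    have e5 : (∏ x ∈ K.erase i, w x) ^ ((j : ℝ) / ((j + m : ℕ) : ℝ)) =
        ((∏ x ∈ K.erase i, w x) ^ (j + m + 1)) ^ ((j : ℝ) / (((j + m : ℕ) : ℝ) * ((j + (m + 1) : ℕ) : ℝ))) := by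
      rw [← Real.rpow_natCast (∏ x ∈ K.erase i, w x) (j + m + 1), ← Real.rpow_mul hP']
      congr 1
      have e6 : ((j + m + 1 : ℕ) : ℝ) = ((j + (m + 1) : ℕ) : ℝ) := by rw [add_assoc]
      rw [e6]
      field_simp
    rw [e4, e5]
    exact Real.rpow_le_rpow (pow_nonneg hP _) e3 (by positivity)

theorem PP_le_rpow (w : V → ℝ) (hw : ∀ i, 0 ≤ w i) {j k : ℕ} (hj : 1 ≤ j) (hjk : j ≤ k) :
    PP H k w ≤ 2 ^ Fintype.card V * PP H j w ^ ((k : ℝ) / j) := by
  classical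
  have hj0 : (0 : ℝ) < j := by exact_mod_cast hj
  have hk0 : (0 : ℝ) < k := by exact_mod_cast (by omega : 0 < k)
  have h1 : ∀ s ∈ cl H k, ∏ i ∈ s, w i ≤ PP H j w ^ ((k : ℝ) / j) := by
    intro s hs
    rw [mem_cl, SimpleGraph.isNClique_iff] at hs
    obtain ⟨J, hJs, hJc, hJP⟩ := exists_sub_fl w hw hj (k - j) s (by rw [hs.2]; omega)
    have e0 : j + (k - j) = k := by omega
    rw [e0] at hJP
    have hJcl : J ∈ cl H j := by
      rw [mem_cl, SimpleGraph.isNClique_iff]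
      exact ⟨hs.1.subset (by exact_mod_cast hJs), hJc⟩
    have h2 : ∏ i ∈ J, w i ≤ PP H j w :=
      Finset.single_le_sum (f := fun s => ∏ i ∈ s, w i) (fun s _ => Finset.prod_nonneg fun i _ => hw i) hJcl
    have hP : 0 ≤ ∏ i ∈ s, w i := Finset.prod_nonneg fun i _ => hw i
    have h3 : ∏ i ∈ s, w i = ((∏ i ∈ s, w i) ^ ((j : ℝ) / (k : ℝ))) ^ ((k : ℝ) / j) := by
      rw [← Real.rpow_mul hP]
      have h4 : (j : ℝ) / k * (k / j) = 1 := by field_simp
      rw [h4, Real.rpow_one]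
    rw [h3]
    exact Real.rpow_le_rpow (Real.rpow_nonneg hP _) (hJP.trans h2) (by positivity)
  have h5 : 0 ≤ PP H j w ^ ((k : ℝ) / j) := Real.rpow_nonneg (PP_nonneg j hw) _
  refine (Finset.sum_le_card_nsmul _ _ _ h1).trans ?_
  rw [nsmul_eq_mul]
  refine mul_le_mul_of_nonneg_right ?_ h5
  exact_mod_cast card_cl_le H k

end Pool.Agent.Helper74.FW
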