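import Pool.Agent.Helper74.FW.Basic

/-!
# Block FW-UNI: cliques of disjoint unions

PROOF of `card_sum`. `G.sum H` is the disjoint union of Mathlib. A clique with `k + 1 ≥ 1` vertices is contained in the first or in
the second part: `cl (G.sum H) (k + 1)` is the disjoint union of the images of `cl G (k + 1)` under `Finset.map inl` and of
`cl H (k + 1)` under `Finset.map inr` (`Finset.card_union_of_disjoint`, `Finset.card_map`).
`choose_bound`: `cl G k ⊆ univ.powersetCard k`.
-/

set_option autoImplicit false

namespace Pool.Agent.Helper74.FW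

open Finset

theorem card_sum {V W : Type} [Fintype V] [Fintype W] (G : SimpleGraph V) (H : SimpleGraph W)
    (k : ℕ) : (cl (G.sum H) (k + 1)).card = (cl G (k + 1)).card + (cl H (k + 1)).card := by
  classical
  have hu : cl (G.sum H) (k + 1) =
      (cl G (k + 1)).map (Finset.mapEmbedding (Function.Embedding.inl (α := V) (β := W))).toEmbedding
        ∪ (cl H (k + 1)).map
          (Finset.mapEmbedding (Function.Embedding.inr (α := V) (β := W))).toEmbedding := by
    ext s
    rw [mem_cl, Finset.mem_union, Finset.mem_map, Finset.mem_map]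
    constructor
    · intro hs
      obtain ⟨hc, hcard⟩ := (SimpleGraph.isNClique_iff _).1 hs
      obtain ⟨a, ha⟩ := Finset.card_pos.1 (by omega : 0 < s.card)
      cases a with
      | inl v =>
        left
        have hall : ∀ x ∈ s, ∃ y : V, x = Sum.inl y := by
          intro x hx
          cases x with
          | inl y => exact ⟨y, rfl⟩
          | inr y =>
            exfalso
            have hadj := hc ha hx (by simp)
            simp at hadj
        have himg : s.toLeft.map (Function.Embedding.inl (α := V) (β := W)) = s := by
          ext x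
          rw [Finset.mem_map]
          constructor
          · rintro ⟨y, hy, rfl⟩
            exact Finset.mem_toLeft.1 hy
          · intro hx
            obtain ⟨y, rfl⟩ := hall x hx
            exact ⟨y, Finset.mem_toLeft.2 hx, rfl⟩
        refine ⟨s.toLeft, ?_, himg⟩
        rw [mem_cl, SimpleGraph.isNClique_iff]
        refine ⟨?_, ?_⟩
        · intro x hx y hy hxy
          have h1 : (Sum.inl x : V ⊕ W) ∈ s := Finset.mem_toLeft.1 (Finset.mem_coe.1 hx)
          have h2 : (Sum.inl y : V ⊕ W) ∈ s := Finset.mem_toLeft.1 (Finset.mem_coe.1 hy)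
          have h3 := hc h1 h2 (fun h => hxy (Sum.inl_injective h))
          exact SimpleGraph.sum_adj_inl.1 h3
        · rw [← hcard, ← Finset.card_map (Function.Embedding.inl (α := V) (β := W)), himg]
      | inr v =>
        right
        have hall : ∀ x ∈ s, ∃ y : W, x = Sum.inr y := by
          intro x hx
          cases x with
          | inr y => exact ⟨y, rfl⟩
          | inl y =>
            exfalso
            have hadj := hc ha hx (by simp)
            simp at hadj
        have himg : s.toRight.map (Function.Embedding.inr (α := V) (β := W)) = s := by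
          ext x
          rw [Finset.mem_map]
          constructor
          · rintro ⟨y, hy, rfl⟩
            exact Finset.mem_toRight.1 hy
          · intro hx
            obtain ⟨y, rfl⟩ := hall x hx
            exact ⟨y, Finset.mem_toRight.2 hx, rfl⟩
        refine ⟨s.toRight, ?_, himg⟩
        rw [mem_cl, SimpleGraph.isNClique_iff]
        refine ⟨?_, ?_⟩
        · intro x hx y hy hxy
          have h1 : (Sum.inr x : V ⊕ W) ∈ s := Finset.mem_toRight.1 (Finset.mem_coe.1 hx)
          have h2 : (Sum.inr y : V ⊕ W) ∈ s := Finset.mem_toRight.1 (Finset.mem_coe.1 hy)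
          have h3 := hc h1 h2 (fun h => hxy (Sum.inr_injective h))
          exact SimpleGraph.sum_adj_inr.1 h3
        · rw [← hcard, ← Finset.card_map (Function.Embedding.inr (α := V) (β := W)), himg]
    · rintro (⟨t, ht, rfl⟩ | ⟨t, ht, rfl⟩)
      · rw [mem_cl, SimpleGraph.isNClique_iff] at ht
        rw [SimpleGraph.isNClique_iff]
        refine ⟨?_, ?_⟩
        · intro x hx y hy hxy
          have hx' : x ∈ t.map (Function.Embedding.inl (α := V) (β := W)) := hx
          have hy' : y ∈ t.map (Function.Embedding.inl (α := V) (β := W)) := hy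
          rw [Finset.mem_map] at hx' hy'
          obtain ⟨x', hx1, rfl⟩ := hx'
          obtain ⟨y', hy1, rfl⟩ := hy'
          exact SimpleGraph.sum_adj_inl.2
            (ht.1 (Finset.mem_coe.2 hx1) (Finset.mem_coe.2 hy1) fun h => hxy (by rw [h]))
        · exact (Finset.card_map _).trans ht.2
      · rw [mem_cl, SimpleGraph.isNClique_iff] at ht
        rw [SimpleGraph.isNClique_iff]
        refine ⟨?_, ?_⟩
        · intro x hx y hy hxy
          have hx' : x ∈ t.map (Function.Embedding.inr (α := V) (β := W)) := hx
          have hy' : y ∈ t.map (Function.Embedding.inr (α := V) (β := W)) := hy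
          rw [Finset.mem_map] at hx' hy'
          obtain ⟨x', hx1, rfl⟩ := hx'
          obtain ⟨y', hy1, rfl⟩ := hy'
          exact SimpleGraph.sum_adj_inr.2
            (ht.1 (Finset.mem_coe.2 hx1) (Finset.mem_coe.2 hy1) fun h => hxy (by rw [h]))
        · exact (Finset.card_map _).trans ht.2
  rw [hu, Finset.card_union_of_disjoint, Finset.card_map, Finset.card_map]
  rw [Finset.disjoint_left]
  intro s hs1 hs2
  rw [Finset.mem_map] at hs1 hs2
  obtain ⟨t, ht, rfl⟩ := hs1
  obtain ⟨u, hu2, hut⟩ := hs2
  rw [mem_cl, SimpleGraph.isNClique_iff] at hu2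
  obtain ⟨b, hb⟩ := Finset.card_pos.1 (by omega : 0 < u.card)
  have hb1 : (Sum.inr b : V ⊕ W) ∈ u.map (Function.Embedding.inr (α := V) (β := W)) :=
    Finset.mem_map.2 ⟨b, hb, rfl⟩
  have hut' : u.map (Function.Embedding.inr (α := V) (β := W)) =
      t.map (Function.Embedding.inl (α := V) (β := W)) := hut
  rw [hut', Finset.mem_map] at hb1
  obtain ⟨c, -, hc⟩ := hb1
  simp at hc

theorem choose_bound {V : Type} [Fintype V] (G : SimpleGraph V) (k : ℕ) :
    (cl G k).card ≤ (Fintype.card V).choose k := by
  classical
  have hsub : cl G k ⊆ (univ : Finset V).powersetCard k := by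
    intro s hs
    rw [mem_cl, SimpleGraph.isNClique_iff] at hs
    exact Finset.mem_powersetCard.2 ⟨Finset.subset_univ _, hs.2⟩
  calc (cl G k).card ≤ ((univ : Finset V).powersetCard k).card := Finset.card_le_card hsub
    _ = (Fintype.card V).choose k := by rw [Finset.card_powersetCard, Finset.card_univ]

theorem cliqueFree_sum {V W : Type} [Fintype V] [Fintype W] {G : SimpleGraph V}
    {H : SimpleGraph W} {k : ℕ} (hG : G.CliqueFree (k + 1)) (hH : H.CliqueFree (k + 1)) :
    (G.sum H).CliqueFree (k + 1) := by
  rw [cliqueFree_iff, card_sum, cliqueFree_iff.1 hG, cliqueFree_iff.1 hH]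

end Pool.Agent.Helper74.FW
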