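import Pool.Agent.Helper74.FW.Piece
import Pool.Agent.Helper74.FW.Union

/-!
# Block FW-GAD: exact numbers of cliques

PROOF. By induction on `e ≤ d`: there is a graph `G` on `V` without `K_{d+1}`, with exactly `r k` cliques with `k` vertices for
`d - e < k ≤ d`, and with at most `∑ k ∈ Ioc (d - e) d, v k` vertices. `e = 0`: the empty graph (`V = Fin 0`, `d + 1 ≥ 1`). Step: let
`j = d - e ≥ 1` and let `G` be the graph for `e`; it has `c ≤ choose (card V) j` cliques with `j` vertices (`choose_bound`). If `j < d` this is at most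
`choose (∑ k ∈ Ioc j d, v k) j ≤ r j` (`Nat.choose_mono`); if `j = d` then `V` is empty and `c = 0` (`1 ≤ j`). If `r j = 0` then `c = 0` and `G` is fine
(the sum only grows). Otherwise take the piece of `exists_piece` for `M = j`, `r j - c ≤ N ^ j`: it has no cliques with more than `j`
vertices, so `G.sum piece` has the right numbers for all `k ≥ j` (`card_sum`, `cliqueFree_iff`, `CliqueFree.mono`) and
at most `∑ + v j` vertices. Finally `e = d`.
-/

set_option autoImplicit false

namespace Pool.Agent.Helper74.FW

open Finset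

theorem exists_gadget (d : ℕ) (r v : ℕ → ℕ)
    (hv : ∀ k, 1 ≤ k → k ≤ d → r k = 0 ∨ ∃ N, 1 ≤ N ∧ r k ≤ N ^ k ∧ k * (N + 1) ≤ v k)
    (h : ∀ j, 1 ≤ j → j < d → (∑ k ∈ Ioc j d, v k).choose j ≤ r j) :
    ∃ (V : Type) (_ : Fintype V) (G : SimpleGraph V), G.CliqueFree (d + 1) ∧
      ∀ k, 1 ≤ k → k ≤ d → (cl G k).card = r k := by
  have key : ∀ e, e ≤ d → ∃ (V : Type) (_ : Fintype V) (G : SimpleGraph V), G.CliqueFree (d + 1) ∧
      (∀ k, d - e < k → k ≤ d → (cl G k).card = r k) ∧
      Fintype.card V ≤ ∑ k ∈ Ioc (d - e) d, v k := by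
    intro e
    induction e with
    | zero =>
      intro _
      refine ⟨Fin 0, inferInstance, ⊥, ?_, ?_, ?_⟩
      · rw [cliqueFree_iff]
        have := choose_bound (⊥ : SimpleGraph (Fin 0)) (d + 1)
        simpa using this
      · intro k h1 h2
        omega
      · simp
    | succ e ih =>
      intro he
      obtain ⟨V, hV, G, hG, hGk, hGv⟩ := ih (by omega)
      obtain ⟨j, hj⟩ : ∃ j, d - e = j + 1 := ⟨d - e - 1, by omega⟩
      have hj' : d - (e + 1) = j := by omega
      rw [hj] at hGk hGv
      rw [hj']
      have hIoc : Ioc j d = insert (j + 1) (Ioc (j + 1) d) := by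
        ext x
        simp only [mem_Ioc, mem_insert]
        omega
      have hsum : ∑ k ∈ Ioc j d, v k = v (j + 1) + ∑ k ∈ Ioc (j + 1) d, v k := by
        rw [hIoc, Finset.sum_insert (by simp)]
      have hc0 := choose_bound G (j + 1)
      have hc : (cl G (j + 1)).card ≤ r (j + 1) := by
        by_cases hjd : j + 1 < d
        · exact hc0.trans ((Nat.choose_le_choose (j + 1) hGv).trans (h (j + 1) (by omega) hjd))
        · have hjd' : j + 1 = d := by omega
          have h0 : Fintype.card V = 0 := by
            have : ∑ k ∈ Ioc (j + 1) d, v k = 0 := by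
              rw [hjd', Finset.Ioc_self, Finset.sum_empty]
            omega
          rw [h0, Nat.choose_zero_succ] at hc0
          omega
      rcases hv (j + 1) (by omega) (by omega) with h0 | ⟨N, hN, hrN, hvN⟩
      · refine ⟨V, hV, G, hG, ?_, ?_⟩
        · intro k h1 h2
          rcases Nat.lt_or_ge (j + 1) k with hk | hk
          · exact hGk k hk h2
          · have : k = j + 1 := by omega
            subst this
            omega
        · rw [hsum]
          omega
      · obtain ⟨W, hW, H, hH, hHc, hHv⟩ := exists_piece (j + 1) N (r (j + 1) - (cl G (j + 1)).card)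
          (by omega) hN (by omega)
        refine ⟨V ⊕ W, inferInstance, G.sum H, ?_, ?_, ?_⟩
        · exact cliqueFree_sum hG (hH.mono (by omega))
        · intro k h1 h2
          obtain ⟨k, rfl⟩ : ∃ k', k = k' + 1 := ⟨k - 1, by omega⟩
          rw [card_sum]
          rcases Nat.lt_or_ge j k with hk | hk
          · rw [hGk (k + 1) (by omega) h2, cliqueFree_iff.1 (hH.mono (by omega)), Nat.add_zero]
          · have : k = j := by omega
            subst this
            omega
        · rw [hsum, Fintype.card_sum]
          omega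
  obtain ⟨V, hV, G, hG, hGk, -⟩ := key d le_rfl
  exact ⟨V, hV, G, hG, fun k h1 h2 => hGk k (by omega) h2⟩

end Pool.Agent.Helper74.FW
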