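import Pool.Agent.Helper74.FW.Digits

/-!
# Block FW-LNK: exact numbers of cliques by new vertices attached to boxes

PROOF. By induction on `e ≤ d`: there is a list `L` of boxes `b ≤ n`, with `NP H k b = 0` for all `b ∈ L`, `k ≥ d`, such that
`(L.map fun b => NP H (j - 1) b).sum = r j` for `d - e < j ≤ d`, and `(L.map fun b => NP H i b).sum ≤ (∑ k ∈ Ioc (d - e) d, (r k / (∏ i ∈ K k, n i) + k)) * NP H i n` for all `i`.
`e = 0`: `L = []`. Step: `j = d - e ≥ 1`; the sum `c = (L.map fun b => NP H (j - 1) b).sum` is at most `r j` (`hr` for `j < d`; `c = 0` for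
`j = d`). Take the list `L'` of `exists_boxes` for `K j` and `r j - c`; its length is at most `r j / ∏ + (j - 1)`. For `b ∈ L'`, which is
supported on the clique `K j` with `j - 1` vertices, `NP H (j - 1) b = ∏ i ∈ K j, b i` (all other cliques with `j - 1` vertices contain a
vertex `i ∉ K j`, `b i = 0`), `NP H k b = 0` for `k ≥ j`, and `NP H i b ≤ NP H i n` (`NP_mono`). The new list is `L' ++ L`.
-/

set_option autoImplicit false

namespace Pool.Agent.Helper74.FW

open Finset

private theorem lnk52_zero {V : Type} [Fintype V] [DecidableEq V] (H : SimpleGraph V) (K : Finset V)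
    (b : V → ℕ) (hb : ∀ i, i ∉ K → b i = 0) (k : ℕ) (hk : K.card < k) : NP H k b = 0 := by
  unfold NP
  refine Finset.sum_eq_zero fun s hs => ?_
  have h1 : s.card = k := (mem_cl.1 hs).card_eq
  have h2 : ¬ s ⊆ K := by
    intro h
    have := Finset.card_le_card h
    omega
  obtain ⟨i, hi, hiK⟩ := Finset.not_subset.1 h2
  exact Finset.prod_eq_zero hi (hb i hiK)

private theorem lnk52_eq {V : Type} [Fintype V] [DecidableEq V] (H : SimpleGraph V) (K : Finset V)
    (b : V → ℕ) (hb : ∀ i, i ∉ K → b i = 0) (k : ℕ) (hK : H.IsNClique k K) :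
    NP H k b = ∏ i ∈ K, b i := by
  unfold NP
  refine Finset.sum_eq_single_of_mem K (mem_cl.2 hK) fun s hs hne => ?_
  have h1 : s.card = k := (mem_cl.1 hs).card_eq
  have h2 : ¬ s ⊆ K := by
    intro h
    exact hne (Finset.eq_of_subset_of_card_le h (by rw [h1, hK.card_eq]))
  obtain ⟨i, hi, hiK⟩ := Finset.not_subset.1 h2
  exact Finset.prod_eq_zero hi (hb i hiK)

private theorem lnk52_len {V : Type} [Fintype V] (H : SimpleGraph V) (n : V → ℕ) (k : ℕ)
    (L : List (V → ℕ)) (hL : ∀ b ∈ L, ∀ i, b i ≤ n i) :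
    (L.map fun b => NP H k b).sum ≤ L.length * NP H k n := by
  induction L with
  | nil => simp
  | cons b L ih =>
    have h1 : NP H k b ≤ NP H k n := NP_mono k (hL b (by simp))
    have h2 := ih fun b' hb' => hL b' (by simp [hb'])
    rw [List.map_cons, List.sum_cons, List.length_cons, add_mul, one_mul]
    omega

private theorem lnk52_sumzero {V : Type} (f : (V → ℕ) → ℕ) (L : List (V → ℕ))
    (h : ∀ b ∈ L, f b = 0) : (L.map f).sum = 0 := by
  rw [List.sum_eq_zero]
  intro x hx
  obtain ⟨b, hb, rfl⟩ := List.mem_map.1 hx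
  exact h b hb

theorem exists_links {V : Type} [Fintype V] [DecidableEq V] (H : SimpleGraph V) (n : V → ℕ)
    (d : ℕ) (r : ℕ → ℕ) (K : ℕ → Finset V)
    (hK : ∀ j, 1 ≤ j → j ≤ d → H.IsNClique (j - 1) (K j))
    (hn : ∀ j, 1 ≤ j → j ≤ d → ∀ i ∈ K j, 1 ≤ n i)
    (hr : ∀ j, 1 ≤ j → j < d →
      (∑ k ∈ Ioc j d, (r k / (∏ i ∈ K k, n i) + k)) * NP H (j - 1) n ≤ r j) :
    ∃ L : List (V → ℕ), (∀ b ∈ L, ∀ i, b i ≤ n i) ∧ (∀ b ∈ L, ∀ k, d ≤ k → NP H k b = 0) ∧
      ∀ j, 1 ≤ j → j ≤ d → (L.map fun b => NP H (j - 1) b).sum = r j := by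
  have key : ∀ e, e ≤ d → ∃ L : List (V → ℕ), (∀ b ∈ L, ∀ i, b i ≤ n i) ∧
      (∀ b ∈ L, ∀ k, d ≤ k → NP H k b = 0) ∧
      (∀ j, d - e < j → j ≤ d → (L.map fun b => NP H (j - 1) b).sum = r j) ∧
      L.length ≤ ∑ k ∈ Ioc (d - e) d, (r k / (∏ i ∈ K k, n i) + k) := by
    intro e
    induction e with
    | zero =>
      intro _
      refine ⟨[], by simp, by simp, fun j h1 h2 => by omega, by simp⟩
    | succ e ih =>
      intro he
      obtain ⟨L, hL1, hL2, hL3, hL4⟩ := ih (by omega)
      obtain ⟨j, hj⟩ : ∃ j, j = d - e := ⟨_, rfl⟩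
      have hj1 : 1 ≤ j := by omega
      have hjd : j ≤ d := by omega
      have hje : d - (e + 1) = j - 1 := by omega
      rw [← hj] at hL3 hL4
      rw [hje]
      have hc : (L.map fun b => NP H (j - 1) b).sum ≤ r j := by
        rcases Nat.lt_or_ge j d with hlt | hge
        · refine le_trans (lnk52_len H n (j - 1) L hL1) (le_trans ?_ (hr j hj1 hlt))
          exact Nat.mul_le_mul_right _ hL4
        · have hjd' : j = d := le_antisymm hjd hge
          rw [hjd', Finset.Ioc_self, Finset.sum_empty] at hL4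
          have hnil : L = [] := List.length_eq_zero_iff.1 (Nat.le_zero.1 hL4)
          rw [hnil]
          simp
      obtain ⟨L', hL'1, hL'2, hL'3⟩ := exists_boxes (K j) n (hn j hj1 hjd)
        (r j - (L.map fun b => NP H (j - 1) b).sum)
      have hKj : (K j).card = j - 1 := (hK j hj1 hjd).card_eq
      refine ⟨L' ++ L, ?_, ?_, ?_, ?_⟩
      · intro b hb i
        rcases List.mem_append.1 hb with h | h
        · exact (hL'2 b h).1 i
        · exact hL1 b h i
      · intro b hb k hk
        rcases List.mem_append.1 hb with h | h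
        · exact lnk52_zero H (K j) b (hL'2 b h).2 k (by omega)
        · exact hL2 b h k hk
      · intro i hi1 hi2
        rw [List.map_append, List.sum_append]
        rcases Nat.lt_or_ge j i with hlt | hge
        · rw [hL3 i hlt hi2, lnk52_sumzero, zero_add]
          intro b hb
          exact lnk52_zero H (K j) b (hL'2 b hb).2 (i - 1) (by omega)
        · have hij : i = j := by omega
          subst hij
          have h1 : (L'.map fun b => NP H (i - 1) b) = L'.map fun b => ∏ v ∈ K i, b v := by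
            refine List.map_congr_left fun b hb => ?_
            exact lnk52_eq H (K i) b (hL'2 b hb).2 (i - 1) (hK i hj1 hjd)
          rw [h1, hL'3]
          omega
      · rw [List.length_append]
        have h1 : r j - (L.map fun b => NP H (j - 1) b).sum ≤ r j := Nat.sub_le _ _
        have h2 : (r j - (L.map fun b => NP H (j - 1) b).sum) / (∏ i ∈ K j, n i) ≤
            r j / (∏ i ∈ K j, n i) := Nat.div_le_div_right h1
        have h3 : ∑ k ∈ Ioc (j - 1) d, (r k / (∏ i ∈ K k, n i) + k) =
            (r j / (∏ i ∈ K j, n i) + j) + ∑ k ∈ Ioc j d, (r k / (∏ i ∈ K k, n i) + k) := by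
          rw [← Finset.sum_Ioc_consecutive _ (Nat.sub_le j 1) hjd]
          congr 1
          have h4 : Ioc (j - 1) j = {j} := by
            ext x
            rw [Finset.mem_Ioc, Finset.mem_singleton]
            omega
          rw [h4, Finset.sum_singleton]
        rw [h3]
        omega
  obtain ⟨L, hL1, hL2, hL3, -⟩ := key d le_rfl
  exact ⟨L, hL1, hL2, fun j h1 h2 => hL3 j (by omega) h2⟩

end Pool.Agent.Helper74.FW
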