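import Pool.Agent.Helper74.FW.Gadget
import Pool.Agent.Helper74.FW.Floor
import Pool.Agent.Helper74.FW.Const

/-!
# Sufficiency, all densities
-/

set_option autoImplicit false

namespace Pool.Agent.Helper74.FW

open Finset

theorem NP_eq_zero {V : Type} [Fintype V] {H : SimpleGraph V} {k : ℕ} (hH : H.CliqueFree k)
    (n : V → ℕ) : NP H k n = 0 := by
  rw [cliqueFree_iff, Finset.card_eq_zero] at hH
  simp [NP, hH]

theorem suff (d : ℕ) (hd : 1 ≤ d) :
    ∃ A : Fin d → ℝ, (∀ k, 0 ≤ A k) ∧ (∀ k : Fin d, k.1 + 1 = d → A k = 0) ∧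
      ∀ f : List ℕ, f.length = d → (∀ a ∈ f, 0 < a) →
        (fun k : Fin d => (f.getD k 0 : ℝ) - A k * (f.getD k 0 : ℝ) ^ (1 - 1 / (d : ℝ))) ∈ region d →
        FV.IsFaceVector f := by
  classical
  set R := (2 * d).choose d with hR
  obtain ⟨A, hA, hAd, hconst⟩ := exists_const d R hd
  refine ⟨fun k => A (k.1 + 1), fun k => hA _, fun k hk => by
    change A (k.1 + 1) = 0
    rw [hk]
    exact hAd, ?_⟩
  rintro f hlen hpos ⟨H, w, hH, hw, hx⟩
  have hfpos : ∀ k, k < d → 0 < f.getD k 0 := by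
    intro k hk
    rw [List.getD_eq_getElem _ _ (by omega)]
    exact hpos _ (List.getElem_mem _)
  set F : ℕ → ℕ := fun j => if 1 ≤ j ∧ j ≤ d then f.getD (j - 1) 0 else 1 with hF
  have hF1 : ∀ j, 1 ≤ F j := by
    intro j
    rw [hF]
    by_cases hj : 1 ≤ j ∧ j ≤ d
    · simp only [if_pos hj]
      exact hfpos _ (by omega)
    · simp only [if_neg hj]
      exact le_rfl
  have hF1' : ∀ j, (1 : ℝ) ≤ F j := fun j => by exact_mod_cast hF1 j
  have hF0 : F 0 = 1 := by
    rw [hF]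
    simp
  set e : ℝ := 1 - 1 / (d : ℝ) with he
  have hPP : ∀ j, 1 ≤ j → j ≤ d → PP H j w = F j - A j * (F j : ℝ) ^ e := by
    intro j hj1 hj2
    have h1 := hx ⟨j - 1, by omega⟩
    simp only [] at h1
    have h2 : j - 1 + 1 = j := by omega
    rw [h2] at h1
    rw [← h1]
    have h3 : F j = f.getD (j - 1) 0 := by
      rw [hF]
      simp only [if_pos (⟨hj1, hj2⟩ : 1 ≤ j ∧ j ≤ d)]
    rw [h3]
  have hAF : ∀ j, 0 ≤ A j * (F j : ℝ) ^ e := fun j => mul_nonneg (hA j) (by positivity)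
  have hPF : ∀ j, j ≤ d → PP H j w ≤ F j := by
    intro j hj
    by_cases h0 : j = 0
    · rw [h0, PP_zero, hF0, Nat.cast_one]
    · rw [hPP j (by omega) hj]
      linarith [hAF j]
  set n : Fin R → ℕ := fun i => ⌊w i⌋₊ with hn
  have hNP : ∀ j, (NP H j n : ℝ) ≤ PP H j w := fun j => floor_le H w hw j
  have hNF : ∀ j, j ≤ d → NP H j n ≤ F j := by
    intro j hj
    have := (hNP j).trans (hPF j hj)
    exact_mod_cast this
  set r : ℕ → ℕ := fun j => F j - NP H j n with hr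
  have hr' : ∀ j, j ≤ d → (r j : ℝ) = F j - NP H j n := by
    intro j hj
    rw [hr]
    simp only []
    rw [Nat.cast_sub (hNF j hj)]
  have hr1 : ∀ j, 1 ≤ j → j ≤ d → A j * (F j : ℝ) ^ e ≤ r j := by
    intro j hj1 hj2
    rw [hr' j hj2]
    have h1 := hNP j
    rw [hPP j hj1 hj2] at h1
    linarith
  have hr2 : ∀ j, 1 ≤ j → j ≤ d → (r j : ℝ) ≤ A j * (F j : ℝ) ^ e + R * F (j - 1) := by
    intro j hj1 hj2
    rw [hr' j hj2]
    have h1 := floor_ge H w hw (j - 1)
    have h2 : j - 1 + 1 = j := by omega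
    rw [h2, hPP j hj1 hj2, Fintype.card_fin] at h1
    have h3 : (R : ℝ) * PP H (j - 1) w ≤ R * F (j - 1) :=
      mul_le_mul_of_nonneg_left (hPF (j - 1) (by omega)) (Nat.cast_nonneg _)
    linarith
  set v : ℕ → ℕ := fun k => if r k = 0 then 0 else k * (⌈(r k : ℝ) ^ (1 / (k : ℝ))⌉₊ + 1) with hv
  have hrk : ∀ k, r k ≠ 0 → (1 : ℝ) ≤ (r k : ℝ) ^ (1 / (k : ℝ)) := by
    intro k hk
    apply Real.one_le_rpow
    · exact_mod_cast Nat.one_le_iff_ne_zero.2 hk
    · positivity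
  have hv1 : ∀ k, 1 ≤ k → k ≤ d → r k = 0 ∨ ∃ N, 1 ≤ N ∧ r k ≤ N ^ k ∧ k * (N + 1) ≤ v k := by
    intro k hk1 hk2
    by_cases h0 : r k = 0
    · exact Or.inl h0
    · right
      refine ⟨⌈(r k : ℝ) ^ (1 / (k : ℝ))⌉₊, ?_, ?_, ?_⟩
      · rw [Nat.one_le_ceil_iff]
        linarith [hrk k h0]
      · have h1 : (r k : ℝ) ≤ (⌈(r k : ℝ) ^ (1 / (k : ℝ))⌉₊ : ℝ) ^ k := by
          have h2 : ((r k : ℝ) ^ (1 / (k : ℝ))) ^ k = r k := by
            rw [← Real.rpow_natCast, ← Real.rpow_mul (Nat.cast_nonneg _), one_div,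
              inv_mul_cancel₀ (by exact_mod_cast (by omega : k ≠ 0)), Real.rpow_one]
          calc (r k : ℝ) = ((r k : ℝ) ^ (1 / (k : ℝ))) ^ k := h2.symm
            _ ≤ _ := pow_le_pow_left₀ (by linarith [hrk k h0]) (Nat.le_ceil _) k
        exact_mod_cast h1
      · rw [hv]
        simp only [if_neg h0]
        exact le_rfl
  have hv2 : ∀ k : ℕ, (v k : ℝ) ≤ 3 * (k : ℝ) * (r k : ℝ) ^ (1 / (k : ℝ)) := by
    intro k
    by_cases h0 : r k = 0
    · have : v k = 0 := by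
        rw [hv]
        simp only [if_pos h0]
      rw [this, Nat.cast_zero]
      positivity
    · have h1 : v k = k * (⌈(r k : ℝ) ^ (1 / (k : ℝ))⌉₊ + 1) := by
        rw [hv]
        simp only [if_neg h0]
      have h2 := (Nat.ceil_lt_add_one (by linarith [hrk k h0] : 0 ≤ (r k : ℝ) ^ (1 / (k : ℝ)))).le
      have h3 := hrk k h0
      rw [h1]
      push_cast
      have h4 : (k : ℝ) * ((⌈(r k : ℝ) ^ (1 / (k : ℝ))⌉₊ : ℝ) + 1) ≤
          k * (3 * (r k : ℝ) ^ (1 / (k : ℝ))) :=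
        mul_le_mul_of_nonneg_left (by linarith) (Nat.cast_nonneg _)
      linarith
  have hch : ∀ j, 1 ≤ j → j < d → (∑ k ∈ Ioc j d, v k).choose j ≤ r j := by
    intro j hj1 hj2
    have h1 : ((∑ k ∈ Ioc j d, v k).choose j : ℝ) ≤ (r j : ℝ) := by
      calc ((∑ k ∈ Ioc j d, v k).choose j : ℝ) ≤ ((∑ k ∈ Ioc j d, v k) ^ j : ℕ) := by
            exact_mod_cast Nat.choose_le_pow _ _
        _ = (∑ k ∈ Ioc j d, (v k : ℝ)) ^ j := by push_cast; rfl
        _ ≤ (∑ k ∈ Ioc j d, 3 * (k : ℝ) *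
              (A k * (F k : ℝ) ^ e + R * (F (k - 1) : ℝ)) ^ (1 / (k : ℝ))) ^ j := by
            refine pow_le_pow_left₀ (by positivity) (Finset.sum_le_sum fun k hk => ?_) j
            rw [mem_Ioc] at hk
            refine (hv2 k).trans (mul_le_mul_of_nonneg_left ?_ (by positivity))
            exact Real.rpow_le_rpow (Nat.cast_nonneg _) (hr2 k (by omega) (by omega))
              (by positivity)
        _ ≤ A j * (F j : ℝ) ^ e := by
            refine hconst j hj1 hj2 (fun i => (F i : ℝ)) hF1' fun k hk1 hk2 => ?_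
            have h2 := hPP k (by omega) hk2
            rw [← h2]
            refine (PP_le_rpow H w hw hj1 hk1.le).trans ?_
            rw [Fintype.card_fin]
            refine mul_le_mul_of_nonneg_left ?_ (by positivity)
            exact Real.rpow_le_rpow (PP_nonneg j hw) (hPF j hj2.le) (by positivity)
        _ ≤ r j := hr1 j hj1 hj2.le
    exact_mod_cast h1
  obtain ⟨W, _, G, hG, hGr⟩ := exists_gadget d r v hv1 hch
  have hne : f ≠ [] := by
    rintro rfl
    simp at hlen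
    omega
  refine isFaceVector_of f hpos hne ((blow H n).sum G) ?_ ?_
  · intro k hk
    rw [hlen] at hk
    rw [card_sum, card_blow, hGr (k + 1) (by omega) (by omega)]
    have h1 : F (k + 1) = f.getD k 0 := by
      rw [hF]
      simp only [if_pos (⟨by omega, by omega⟩ : 1 ≤ k + 1 ∧ k + 1 ≤ d), Nat.add_sub_cancel]
    rw [← h1]
    have h2 := hNF (k + 1) (by omega)
    rw [hr]
    simp only []
    omega
  · rw [hlen]
    refine cliqueFree_sum ?_ hG
    rw [cliqueFree_iff, card_blow]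
    exact NP_eq_zero hH n

end Pool.Agent.Helper74.FW
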