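import Pool.Agent.Helper74.FW.MainB
import Pool.Agent.Helper74.FW.Links

/-!
# Sufficiency, the dense case
-/

set_option autoImplicit false

namespace Pool.Agent.Helper74.FW

open Finset

/-- The constants. -/
def cA (R d j : ℕ) : ℕ := (R + d) * ((2 ^ (R + 1) + 1) ^ (d - j) - 1)

theorem cA_sum (R d : ℕ) : ∀ e, e ≤ d →
    ∑ k ∈ Ioc (d - e) d, (2 ^ (R + 1) * (cA R d k + R) + k) ≤ cA R d (d - e) := by
  intro e
  induction e with
  | zero =>
    intro _
    simp
  | succ e ih =>
    intro he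
    have h1 := ih (by omega)
    have h2 : Ioc (d - (e + 1)) d = insert (d - e) (Ioc (d - e) d) := by
      ext x
      rw [mem_insert, mem_Ioc, mem_Ioc]
      omega
    rw [h2, sum_insert (by simp)]
    have h3 : cA R d (d - (e + 1)) = cA R d (d - e) + (R + d) * 2 ^ (R + 1) * (2 ^ (R + 1) + 1) ^ e := by
      unfold cA
      have e1 : d - (d - (e + 1)) = e + 1 := by omega
      have e2 : d - (d - e) = e := by omega
      rw [e1, e2]
      obtain ⟨q, hq⟩ : ∃ q, (2 ^ (R + 1) + 1) ^ e = q + 1 :=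
        ⟨(2 ^ (R + 1) + 1) ^ e - 1, by
          have : 0 < (2 ^ (R + 1) + 1) ^ e := by positivity
          omega⟩
      rw [pow_succ, hq, Nat.add_sub_cancel]
      have e3 : (q + 1) * (2 ^ (R + 1) + 1) - 1 = q + (q + 1) * 2 ^ (R + 1) := by
        have : (q + 1) * (2 ^ (R + 1) + 1) = q + (q + 1) * 2 ^ (R + 1) + 1 := by ring
        omega
      rw [e3]
      ring
    have h4 : cA R d (d - e) + (R + d) = (R + d) * (2 ^ (R + 1) + 1) ^ e := by
      unfold cA
      have e2 : d - (d - e) = e := by omega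
      rw [e2]
      obtain ⟨q, hq⟩ : ∃ q, (2 ^ (R + 1) + 1) ^ e = q + 1 :=
        ⟨(2 ^ (R + 1) + 1) ^ e - 1, by
          have : 0 < (2 ^ (R + 1) + 1) ^ e := by positivity
          omega⟩
      rw [hq, Nat.add_sub_cancel]
      ring
    have h5 : (R + d) * 2 ^ (R + 1) * (2 ^ (R + 1) + 1) ^ e =
        2 ^ (R + 1) * (cA R d (d - e) + (R + d)) := by
      rw [h4]
      ring
    rw [h3, h5]
    have h6 : 1 ≤ 2 ^ (R + 1) := Nat.one_le_two_pow
    have h7 : d ≤ 2 ^ (R + 1) * d := Nat.le_mul_of_pos_left d h6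
    have h8 : 2 ^ (R + 1) * (cA R d (d - e) + (R + d)) =
        2 ^ (R + 1) * (cA R d (d - e) + R) + 2 ^ (R + 1) * d := by ring
    rw [h8]
    omega

theorem cA_le (R d j : ℕ) : cA R d j ≤ cA R d 0 := by
  unfold cA
  refine Nat.mul_le_mul_left _ (Nat.sub_le_sub_right ?_ 1)
  exact Nat.pow_le_pow_right (by positivity) (by omega)

theorem dense (d : ℕ) (hd : 1 ≤ d) :
    ∃ (A : Fin d → ℝ) (B : ℝ), (∀ k, 0 ≤ A k) ∧ (∀ k : Fin d, k.1 + 1 = d → A k = 0) ∧
      ∀ f : List ℕ, f.length = d → (∀ a ∈ f, 0 < a) →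
        (∀ k, k + 1 < d → B * ((1 :: f).getD k 0 : ℝ) ≤ (f.getD k 0 : ℝ)) →
        (fun k : Fin d => (f.getD k 0 : ℝ) - A k * ((1 :: f).getD k 0 : ℝ)) ∈ region d →
        FV.IsFaceVector f := by
  classical
  set R := (2 * d).choose d with hR
  have hR1 : 1 ≤ R := Nat.choose_pos (by omega)
  refine ⟨fun k => (cA R d (k.1 + 1) : ℝ), 2 * ((cA R d 0 : ℝ) + R), fun k => Nat.cast_nonneg _,
    fun k hk => ?_, ?_⟩
  · change (cA R d (k.1 + 1) : ℝ) = 0
    rw [hk]
    unfold cA
    simp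
  rintro f hlen hpos hgrow ⟨H, w, hH, hw, hx⟩
  set F : ℕ → ℕ := fun j => (1 :: f).getD j 0 with hF
  have hFs : ∀ j, F (j + 1) = f.getD j 0 := fun j => by
    rw [hF]
    simp
  have hF0 : F 0 = 1 := by
    rw [hF]
    simp
  have hFpos : ∀ j, j ≤ d → 1 ≤ F j := by
    intro j hj
    cases j with
    | zero => rw [hF0]
    | succ j =>
      rw [hFs, List.getD_eq_getElem _ _ (by omega)]
      exact hpos _ (List.getElem_mem _)
  have hPP : ∀ j, j < d → PP H (j + 1) w = F (j + 1) - cA R d (j + 1) * (F j : ℝ) := by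
    intro j hj
    have h1 := hx ⟨j, hj⟩
    simp only [] at h1
    rw [← h1, hFs]
  have hPF : ∀ j, j ≤ d → PP H j w ≤ F j := by
    intro j hj
    cases j with
    | zero => rw [PP_zero, hF0, Nat.cast_one]
    | succ j =>
      rw [hPP j (by omega)]
      have : (0 : ℝ) ≤ cA R d (j + 1) * (F j : ℝ) := by positivity
      linarith
  set n : Fin R → ℕ := fun i => ⌊w i⌋₊ with hn
  have hNP : ∀ j, (NP H j n : ℝ) ≤ PP H j w := fun j => floor_le H w hw j
  have hNF : ∀ j, j ≤ d → NP H j n ≤ F j := by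
    intro j hj
    have := (hNP j).trans (hPF j hj)
    exact_mod_cast this
  -- lower bound for the clique sums
  have hlow : ∀ j, j < d → (F (j + 1) : ℝ) ≤ NP H (j + 1) n + (cA R d (j + 1) + R) * F j := by
    intro j hj
    have h1 := floor_ge H w hw j
    rw [hPP j hj, Fintype.card_fin] at h1
    have h3 : (R : ℝ) * PP H j w ≤ R * F j :=
      mul_le_mul_of_nonneg_left (hPF j hj.le) (Nat.cast_nonneg _)
    have h4 : (F (j + 1) : ℝ) - cA R d (j + 1) * F j ≤ NP H (j + 1) n + R * F j := h1.trans (by linarith)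
    linarith
  have hhalf : ∀ i, i < d → (F i : ℝ) ≤ 2 * NP H i n := by
    intro i hi
    cases i with
    | zero =>
      rw [hF0, NP_zero]
      norm_num
    | succ i =>
      have h1 := hlow i (by omega)
      have h2 := hgrow i (by omega)
      rw [← hFs] at h2
      have h3 : ((1 :: f).getD i 0 : ℝ) = F i := rfl
      rw [h3] at h2
      have h4 : (cA R d (i + 1) : ℝ) ≤ cA R d 0 := by exact_mod_cast cA_le R d (i + 1)
      have h5 : (0 : ℝ) ≤ F i := Nat.cast_nonneg _
      have h6 : ((cA R d (i + 1) : ℝ) + R) * F i ≤ ((cA R d 0 : ℝ) + R) * F i :=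
        mul_le_mul_of_nonneg_right (by linarith) h5
      linarith
  have hex : ∀ i, i < d → ∃ K : Finset (Fin R), H.IsNClique i K ∧
      NP H i n ≤ 2 ^ R * ∏ a ∈ K, n a := by
    intro i hi
    have h1 : 0 < NP H i n := by
      have h2 := hhalf i hi
      have h3 : (1 : ℝ) ≤ F i := by exact_mod_cast hFpos i hi.le
      have h4 : (0 : ℝ) < NP H i n := by linarith
      exact_mod_cast h4
    obtain ⟨K, hK, hK'⟩ := exists_clique H n i h1
    rw [Fintype.card_fin] at hK'
    exact ⟨K, hK, hK'⟩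
  choose! K0 hK0 hK0' using hex
  set r : ℕ → ℕ := fun j => F j - NP H j n with hr
  have hMF : ∀ i, i < d → F i ≤ 2 ^ (R + 1) * ∏ a ∈ K0 i, n a := by
    intro i hi
    have h1 := hhalf i hi
    have h2 : F i ≤ 2 * NP H i n := by exact_mod_cast h1
    have h3 := hK0' i hi
    calc F i ≤ 2 * NP H i n := h2
      _ ≤ 2 * (2 ^ R * ∏ a ∈ K0 i, n a) := Nat.mul_le_mul_left _ h3
      _ = _ := by ring
  have hr1 : ∀ j, j < d → cA R d (j + 1) * F j ≤ r (j + 1) := by
    intro j hj
    have h1 := hNP (j + 1)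
    rw [hPP j hj] at h1
    have h2 : (NP H (j + 1) n : ℝ) + cA R d (j + 1) * F j ≤ F (j + 1) := by linarith
    have h3 : NP H (j + 1) n + cA R d (j + 1) * F j ≤ F (j + 1) := by exact_mod_cast h2
    rw [hr]
    simp only []
    omega
  have hr2 : ∀ j, j < d → r (j + 1) ≤ (cA R d (j + 1) + R) * F j := by
    intro j hj
    have h1 := hlow j hj
    have h2 : F (j + 1) ≤ NP H (j + 1) n + (cA R d (j + 1) + R) * F j := by exact_mod_cast h1
    rw [hr]
    simp only []
    omega
  obtain ⟨L, hL1, hL2, hL3⟩ := exists_links H n d r (fun j => K0 (j - 1))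
    (fun j hj1 hj2 => hK0 (j - 1) (by omega))
    (fun j hj1 hj2 i hi => by
      by_contra hcon
      have h0 : n i = 0 := by omega
      have h1 : ∏ a ∈ K0 (j - 1), n a = 0 := Finset.prod_eq_zero hi h0
      have h2 := hMF (j - 1) (by omega)
      rw [h1, mul_zero] at h2
      have h3 := hFpos (j - 1) (by omega)
      omega)
    (fun j hj1 hj2 => by
      obtain ⟨i, rfl⟩ : ∃ i, j = i + 1 := ⟨j - 1, by omega⟩
      have h1 : ∑ k ∈ Ioc (i + 1) d, (r k / (∏ a ∈ K0 (k - 1), n a) + k) ≤ cA R d (i + 1) := by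
        have h2 := cA_sum R d (d - (i + 1)) (by omega)
        have h3 : d - (d - (i + 1)) = i + 1 := by omega
        rw [h3] at h2
        refine le_trans (Finset.sum_le_sum fun k hk => ?_) h2
        rw [mem_Ioc] at hk
        obtain ⟨l, rfl⟩ : ∃ l, k = l + 1 := ⟨k - 1, by omega⟩
        refine Nat.add_le_add_right ?_ _
        rw [Nat.add_sub_cancel]
        apply Nat.div_le_of_le_mul
        calc r (l + 1) ≤ (cA R d (l + 1) + R) * F l := hr2 l (by omega)
          _ ≤ (cA R d (l + 1) + R) * (2 ^ (R + 1) * ∏ a ∈ K0 l, n a) :=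
            Nat.mul_le_mul_left _ (hMF l (by omega))
          _ = _ := by ring
      calc (∑ k ∈ Ioc (i + 1) d, (r k / (∏ a ∈ K0 (k - 1), n a) + k)) * NP H (i + 1 - 1) n
          ≤ cA R d (i + 1) * F i := by
            rw [Nat.add_sub_cancel]
            exact Nat.mul_le_mul h1 (hNF i (by omega))
        _ ≤ r (i + 1) := hr1 i (by omega))
  have hne : f ≠ [] := by
    rintro rfl
    simp at hlen
    omega
  refine isFaceVector_of f hpos hne
    (att (blow H n) fun z : Fin L.length => {x | x.2.1 < L.get z x.1}) ?_ ?_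
  · intro k hk
    rw [hlen] at hk
    rw [card_boxes H n L hL1 k]
    have h1 := hL3 (k + 1) (by omega) (by omega)
    rw [Nat.add_sub_cancel] at h1
    rw [h1, ← hFs]
    have h2 := hNF (k + 1) (by omega)
    rw [hr]
    simp only []
    omega
  · rw [hlen, cliqueFree_iff, card_boxes H n L hL1 d, NP_eq_zero hH, zero_add]
    apply List.sum_eq_zero
    intro y hy
    rw [List.mem_map] at hy
    obtain ⟨b, hb, rfl⟩ := hy
    exact hL2 b hb d le_rfl

end Pool.Agent.Helper74.FW
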