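import Mathlib

/-!
# Block FW-UNI2: the numerical lemma for the universal constant

Only real numbers. `r k = binom (x k, k)` with a real number `x k ≥ k`, and `x (k + 1) ≤ x k / 10`.
PROOF. `r k ≥ 1` (all factors `x k - i ≥ k - i` and `∏ (k - i) = k!`), let `N = ⌈(r k) ^ (1 / k)⌉₊ ≥ 1` and `v k = k * (N + 1)`. As
`r k ≤ x k ^ k / k!` and `k! ≥ (k / e) ^ k` (in Mathlib: `Nat.factorial_lt`-like lemmas or `Real.exp`: `k ^ k / k! ≤ exp k`, `Real.pow_div_factorial_le_exp`) we have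
`(r k) ^ (1 / k) ≤ e * x k / k`. So `v k ≤ k * ((r k) ^ (1 / k) + 2) ≤ 3 * k * (r k) ^ (1 / k) ≤ 3 * e * x k ≤ 9 * x k`. Here `(r k) ^ (1/k) ≥ 1`.
As `x (j + i) ≤ x j / 10 ^ i`, `∑ k ∈ Ioc j d, v k ≤ 9 * x j * ∑_{i ≥ 1} 10 ^ (- i) ≤ x j` (`e < 2.7182818286 < 3`). Finally for a natural number `m ≤ x`:
`choose m j ≤ ∏ i ∈ range j, (x - i) / j!`: if `m < j` the left side is `0`; otherwise `0 ≤ m - i ≤ x - i` for `i < j`
(`Nat.cast_choose_eq_ascPochhammer_div` or `Nat.descFactorial`; `Nat.choose_eq_descFactorial_div_factorial`, `Nat.descFactorial_eq_prod_range`).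
-/

set_option autoImplicit false

namespace Pool.Agent.Helper74.FW

open Finset

theorem exists_uni (d : ℕ) (r : ℕ → ℕ) (x : ℕ → ℝ)
    (hx : ∀ k, 1 ≤ k → k ≤ d → (k : ℝ) ≤ x k)
    (hr : ∀ k, 1 ≤ k → k ≤ d → (r k : ℝ) = (∏ i ∈ range k, (x k - i)) / (k.factorial : ℝ))
    (h : ∀ k, 1 ≤ k → k < d → x (k + 1) ≤ x k / 10) :
    ∃ v : ℕ → ℕ, (∀ k, 1 ≤ k → k ≤ d → ∃ N, 1 ≤ N ∧ r k ≤ N ^ k ∧ k * (N + 1) ≤ v k) ∧
      ∀ j, 1 ≤ j → j < d → (∑ k ∈ Ioc j d, v k).choose j ≤ r j := by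
  classical
  have hfac : ∀ k : ℕ, (∏ i ∈ range k, ((k : ℝ) - i)) = (k.factorial : ℝ) := by
    intro k
    have h := Nat.descFactorial_eq_prod_range k k
    rw [Nat.descFactorial_self] at h
    rw [h, Nat.cast_prod]
    refine prod_congr rfl fun i hi => ?_
    rw [Nat.cast_sub (mem_range.1 hi).le]
  have hr1 : ∀ k, 1 ≤ k → k ≤ d → (1 : ℝ) ≤ r k := by
    intro k h1 h2
    rw [hr k h1 h2, le_div_iff₀ (by positivity), one_mul, ← hfac k]
    refine prod_le_prod (fun i hi => ?_) (fun i hi => ?_)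
    · have : (i : ℝ) ≤ k := by exact_mod_cast (mem_range.1 hi).le
      linarith
    · have := hx k h1 h2
      linarith
  have hup : ∀ k, 1 ≤ k → k ≤ d → (r k : ℝ) ≤ (Real.exp 1 * x k / k) ^ k := by
    intro k h1 h2
    have hk0 : (0 : ℝ) < k := by exact_mod_cast h1
    have hxk := hx k h1 h2
    have hx0 : 0 < x k := lt_of_lt_of_le hk0 hxk
    have e1 : (∏ i ∈ range k, (x k - i)) ≤ x k ^ k := by
      calc (∏ i ∈ range k, (x k - i)) ≤ ∏ _i ∈ range k, x k := by
            refine prod_le_prod (fun i hi => ?_) (fun i _ => ?_)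
            · have : (i : ℝ) ≤ k := by exact_mod_cast (mem_range.1 hi).le
              linarith
            · have : (0 : ℝ) ≤ i := Nat.cast_nonneg i
              linarith
        _ = x k ^ k := by rw [prod_const, card_range]
    have e2 : (k : ℝ) ^ k / k.factorial ≤ Real.exp k := Real.pow_div_factorial_le_exp k hk0.le k
    have e3 : Real.exp k = Real.exp 1 ^ k := by
      rw [← Real.exp_nat_mul, mul_one]
    have hf : (0 : ℝ) < k.factorial := by exact_mod_cast Nat.factorial_pos k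
    have hkk : (k : ℝ) ^ k ≠ 0 := pow_ne_zero _ hk0.ne'
    rw [hr k h1 h2]
    calc (∏ i ∈ range k, (x k - i)) / (k.factorial : ℝ) ≤ x k ^ k / k.factorial :=
          div_le_div_of_nonneg_right e1 hf.le
      _ = (x k / k) ^ k * ((k : ℝ) ^ k / k.factorial) := by
          rw [div_pow]
          field_simp
      _ ≤ (x k / k) ^ k * Real.exp 1 ^ k := by
          rw [← e3]
          exact mul_le_mul_of_nonneg_left e2 (by positivity)
      _ = (Real.exp 1 * x k / k) ^ k := by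
          rw [← mul_pow]
          congr 1
          ring
  have hs1 : ∀ k, 1 ≤ k → k ≤ d → (1 : ℝ) ≤ (r k : ℝ) ^ ((k : ℝ)⁻¹) := by
    intro k h1 h2
    exact Real.one_le_rpow (hr1 k h1 h2) (by positivity)
  have hsk : ∀ k, 1 ≤ k → ((r k : ℝ) ^ ((k : ℝ)⁻¹)) ^ k = r k := by
    intro k h1
    exact Real.rpow_inv_natCast_pow (Nat.cast_nonneg _) (by omega)
  have hs2 : ∀ k, 1 ≤ k → k ≤ d → (r k : ℝ) ^ ((k : ℝ)⁻¹) ≤ Real.exp 1 * x k / k := by
    intro k h1 h2
    have hk0 : (0 : ℝ) < k := by exact_mod_cast h1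
    have hx0 : 0 < x k := lt_of_lt_of_le hk0 (hx k h1 h2)
    have h3 := hup k h1 h2
    rw [← hsk k h1] at h3
    exact (pow_le_pow_iff_left₀ (by positivity) (by positivity) (by omega)).1 h3
  have hv : ∀ k, 1 ≤ k → k ≤ d →
      ((k * (⌈(r k : ℝ) ^ ((k : ℝ)⁻¹)⌉₊ + 1) : ℕ) : ℝ) ≤ 9 * x k := by
    intro k h1 h2
    have hk0 : (0 : ℝ) < k := by exact_mod_cast h1
    have hx0 : 0 < x k := lt_of_lt_of_le hk0 (hx k h1 h2)
    have h3 := Nat.ceil_lt_add_one (a := (r k : ℝ) ^ ((k : ℝ)⁻¹)) (by positivity)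
    have h4 := hs1 k h1 h2
    have h5 := hs2 k h1 h2
    have h6 : (k : ℝ) * (r k : ℝ) ^ ((k : ℝ)⁻¹) ≤ Real.exp 1 * x k := by
      rw [le_div_iff₀ hk0] at h5
      linarith
    have h7 : Real.exp 1 * x k ≤ 3 * x k := by
      have : Real.exp 1 < 3 := Real.exp_one_lt_three
      nlinarith
    push_cast
    nlinarith
  have hsum : ∀ n j, j + n = d → 1 ≤ j →
      ∑ k ∈ Ioc j d, ((k * (⌈(r k : ℝ) ^ ((k : ℝ)⁻¹)⌉₊ + 1) : ℕ) : ℝ) ≤ x j := by
    intro n
    induction n with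
    | zero =>
      intro j hj h1
      rw [Ioc_eq_empty (by omega), sum_empty]
      have := hx j h1 (by omega)
      have : (0 : ℝ) ≤ j := Nat.cast_nonneg j
      linarith
    | succ n ih =>
      intro j hj h1
      have e : Ioc j d = insert (j + 1) (Ioc (j + 1) d) := by
        ext k
        simp only [mem_Ioc, mem_insert]
        omega
      rw [e, sum_insert (by simp)]
      have h2 := ih (j + 1) (by omega) (by omega)
      have h3 := hv (j + 1) (by omega) (by omega)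
      have h4 := h j h1 (by omega)
      linarith
  have hch : ∀ (m j : ℕ) (y : ℝ), (m : ℝ) ≤ y → (j : ℝ) ≤ y →
      (m.choose j : ℝ) ≤ (∏ i ∈ range j, (y - i)) / (j.factorial : ℝ) := by
    intro m j y hm hj
    have hf : (0 : ℝ) < j.factorial := by exact_mod_cast Nat.factorial_pos j
    rcases Nat.lt_or_ge m j with h1 | h1
    · rw [Nat.choose_eq_zero_of_lt h1, Nat.cast_zero]
      refine div_nonneg (prod_nonneg fun i hi => ?_) hf.le
      have : (i : ℝ) ≤ j := by exact_mod_cast (mem_range.1 hi).le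
      linarith
    · rw [le_div_iff₀ hf]
      have e1 : (m.choose j : ℝ) * (j.factorial : ℝ) = ∏ i ∈ range j, ((m : ℝ) - i) := by
        have h2 := Nat.descFactorial_eq_factorial_mul_choose m j
        have h3 := Nat.descFactorial_eq_prod_range m j
        have h4 : (m.choose j) * j.factorial = ∏ i ∈ range j, (m - i) := by
          rw [← h3, h2, mul_comm]
        have h5 := congrArg (Nat.cast : ℕ → ℝ) h4
        rw [Nat.cast_mul, Nat.cast_prod] at h5
        rw [h5]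
        refine prod_congr rfl fun i hi => ?_
        rw [Nat.cast_sub ((mem_range.1 hi).le.trans h1)]
      rw [e1]
      refine prod_le_prod (fun i hi => ?_) (fun i _ => by linarith)
      have : (i : ℝ) ≤ m := by exact_mod_cast (mem_range.1 hi).le.trans h1
      linarith
  refine ⟨fun k => k * (⌈(r k : ℝ) ^ ((k : ℝ)⁻¹)⌉₊ + 1), ?_, ?_⟩
  · intro k h1 h2
    refine ⟨⌈(r k : ℝ) ^ ((k : ℝ)⁻¹)⌉₊, ?_, ?_, le_rfl⟩
    · rw [Nat.one_le_ceil_iff]
      exact lt_of_lt_of_le one_pos (hs1 k h1 h2)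
    · have h3 : (r k : ℝ) ≤ (⌈(r k : ℝ) ^ ((k : ℝ)⁻¹)⌉₊ : ℝ) ^ k := by
        have h4 := pow_le_pow_left₀ (a := (r k : ℝ) ^ ((k : ℝ)⁻¹)) (by positivity)
          (Nat.le_ceil ((r k : ℝ) ^ ((k : ℝ)⁻¹))) k
        rwa [hsk k h1] at h4
      exact_mod_cast h3
  · intro j h1 h2
    have h3 := hsum (d - j) j (by omega) h1
    rw [← Nat.cast_sum] at h3
    have h4 := hch _ j (x j) h3 (hx j h1 h2.le)
    rw [← hr j h1 h2.le] at h4
    exact_mod_cast h4

end Pool.Agent.Helper74.FW
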