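import Pool.Agent.Helper74.FW.Gadget
import Pool.Agent.Helper74.FW.Uni

/-!
# The universal constant
-/

set_option autoImplicit false

namespace Pool.Agent.Helper74.FW

open Finset

theorem universal (f : List ℕ) (hne : f ≠ []) (hf : ∀ a ∈ f, 0 < a) (x : ℕ → ℝ)
    (hx : ∀ k, 1 ≤ k → k ≤ f.length → (k : ℝ) ≤ x k)
    (hfx : ∀ k, 1 ≤ k → k ≤ f.length →
      (f.getD (k - 1) 0 : ℝ) = (∏ i ∈ range k, (x k - i)) / (k.factorial : ℝ))
    (h : ∀ k, 1 ≤ k → k < f.length → x (k + 1) ≤ x k / 10) : FV.IsFaceVector f := by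
  obtain ⟨v, hv, hch⟩ := exists_uni f.length (fun k => f.getD (k - 1) 0) x hx hfx h
  obtain ⟨V, _, G, hG, hr⟩ := exists_gadget f.length (fun k => f.getD (k - 1) 0) v
    (fun k h1 h2 => Or.inr (hv k h1 h2)) hch
  refine isFaceVector_of f hf hne G (fun k hk => ?_) hG
  rw [hr (k + 1) (by omega) (by omega), Nat.add_sub_cancel]

end Pool.Agent.Helper74.FW
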