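import Pool.Agent.Helper74.FW.Basic

/-!
# Block FW-RAM: the theorem of Erdos and Szekeres

PROOF of `ramsey`, by induction on `a + b` (or on `a`, then on `b`), for all `S`. `a = 0` or `b = 0`: `choose = 1`, so `S` has an element, a clique and an
independent set with one vertex. Step for `a + 1`, `b + 1`: pick `v ∈ S`, let `N` (`N'`) be the elements of `S \ {v}` adjacent
(not adjacent) to `v`. As `choose (a + b + 2) (a + 1) = choose (a + b + 1) a + choose (a + b + 1) (a + 1)` either `choose (a + b + 1) a ≤ |N|`
(use `a`, `b + 1` and add `v` to the clique) or `choose (a + b + 1) (a + 1) ≤ |N'|` (use `a + 1`, `b` and add `v` to the independent set).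
-/

set_option autoImplicit false

namespace Pool.Agent.Helper74.FW

open Finset

theorem ramsey {V : Type} (G : SimpleGraph V) : ∀ (a b : ℕ) (S : Finset V),
    (a + b).choose a ≤ S.card →
    (∃ T, T ⊆ S ∧ T.card = a + 1 ∧ G.IsClique (T : Set V)) ∨
      ∃ T, T ⊆ S ∧ T.card = b + 1 ∧ ∀ i ∈ T, ∀ j ∈ T, ¬ G.Adj i j := by
  classical
  intro a
  induction a with
  | zero =>
    intro b S hS
    have h1 : 0 < S.card := by simpa using hS
    obtain ⟨v, hv⟩ := Finset.card_pos.1 h1
    exact Or.inl ⟨{v}, by simpa using hv, by simp, by simp⟩
  | succ a iha =>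
    intro b
    induction b with
    | zero =>
      intro S hS
      have h1 : 0 < S.card := by simpa using hS
      obtain ⟨v, hv⟩ := Finset.card_pos.1 h1
      exact Or.inr ⟨{v}, by simpa using hv, by simp, by simp⟩
    | succ b ihb =>
      intro S hS
      have hch : (a + 1 + (b + 1)).choose (a + 1)
          = (a + (b + 1)).choose a + (a + 1 + b).choose (a + 1) := by
        have : a + 1 + (b + 1) = (a + (b + 1)) + 1 := by ring
        rw [this, Nat.choose_succ_succ]
        congr 2
        ring
      have hpos : 0 < S.card :=
        lt_of_lt_of_le (Nat.choose_pos (by omega)) hS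
      obtain ⟨v, hv⟩ := Finset.card_pos.1 hpos
      have hsplit : ((S.erase v).filter (fun w => G.Adj v w)).card
          + ((S.erase v).filter (fun w => ¬ G.Adj v w)).card = S.card - 1 := by
        rw [Finset.card_filter_add_card_filter_not, Finset.card_erase_of_mem hv]
      rcases le_or_gt ((a + (b + 1)).choose a)
          ((S.erase v).filter (fun w => G.Adj v w)).card with h | h
      · rcases iha (b + 1) _ h with ⟨T, hT, hc, hq⟩ | ⟨T, hT, hc, hq⟩
        · refine Or.inl ⟨insert v T, ?_, ?_, ?_⟩
          · intro x hx
            rcases Finset.mem_insert.1 hx with rfl | hx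
            · exact hv
            · exact Finset.mem_of_mem_erase (Finset.mem_filter.1 (hT hx)).1
          · rw [Finset.card_insert_of_notMem, hc]
            intro hvT
            exact (Finset.mem_erase.1 (Finset.mem_filter.1 (hT hvT)).1).1 rfl
          · rw [Finset.coe_insert, SimpleGraph.isClique_insert]
            exact ⟨hq, fun w hw _ => (Finset.mem_filter.1 (hT (Finset.mem_coe.1 hw))).2⟩
        · exact Or.inr ⟨T, fun x hx =>
            Finset.mem_of_mem_erase (Finset.mem_filter.1 (hT hx)).1, hc, hq⟩
      · have h' : (a + 1 + b).choose (a + 1)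
            ≤ ((S.erase v).filter (fun w => ¬ G.Adj v w)).card := by
          rw [hch] at hS
          omega
        rcases ihb _ h' with ⟨T, hT, hc, hq⟩ | ⟨T, hT, hc, hq⟩
        · exact Or.inl ⟨T, fun x hx =>
            Finset.mem_of_mem_erase (Finset.mem_filter.1 (hT hx)).1, hc, hq⟩
        · refine Or.inr ⟨insert v T, ?_, ?_, ?_⟩
          · intro x hx
            rcases Finset.mem_insert.1 hx with rfl | hx
            · exact hv
            · exact Finset.mem_of_mem_erase (Finset.mem_filter.1 (hT hx)).1
          · rw [Finset.card_insert_of_notMem, hc]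
            intro hvT
            exact (Finset.mem_erase.1 (Finset.mem_filter.1 (hT hvT)).1).1 rfl
          · intro i hi j hj
            rcases Finset.mem_insert.1 hi with rfl | hi
            · rcases Finset.mem_insert.1 hj with rfl | hj
              · exact G.irrefl
              · exact (Finset.mem_filter.1 (hT hj)).2
            · rcases Finset.mem_insert.1 hj with hj' | hj
              · intro hadj
                rw [hj'] at hadj
                exact (Finset.mem_filter.1 (hT hi)).2 (SimpleGraph.Adj.symm hadj)
              · exact hq i hi j hj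

end Pool.Agent.Helper74.FW
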