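import Pool.Agent.Helper74.FW.Basic

/-!
# Block FW-TRA: moving the support of the weights to another vertex set

PROOF. There is an embedding `e : S ↪ W` (`Function.Embedding.nonempty_of_card_le`). Let `H = (G.induce S).map e` (adjacency: `∃ i j : S, G.Adj i j ∧ e i = a ∧ e j = b`)
and `u a = w i` if `a = e i`, `u a = 0` if `a` is not in the range of `e`. A clique of `H` whose product of weights is not zero
consists of images `e i` (its vertices have weight `≠ 0`), it is the image of a clique of `G` in `S`; and a clique of `G` whose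
product is not zero is contained in `S`. So both sums are equal to the sum over the cliques of `G` contained in `S`
(`Finset.sum_bij_ne_zero`, or `Finset.sum_subset` twice and `Finset.sum_map`/`sum_nbij'`). A clique of `H` with at least two vertices consists of
images, so it comes from a clique of `G` (`CliqueFree`: `m = 0` is impossible since `G.CliqueFree 0` is false; for `m = 1` use that
`G.CliqueFree 1` gives that `V` is empty, and then `W` may be not empty: this is why `2 ≤ m` is assumed).
-/

set_option autoImplicit false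

namespace Pool.Agent.Helper74.FW

open Finset

private lemma exists_map68 {α β : Type} (f : α ↪ β) (s : Finset β) (h : ∀ a ∈ s, ∃ i, f i = a) :
    ∃ t : Finset α, t.map f = s := by
  classical
  refine ⟨s.preimage f f.injective.injOn, ?_⟩
  ext a
  rw [Finset.mem_map]
  constructor
  · rintro ⟨i, hi, rfl⟩
    exact Finset.mem_preimage.1 hi
  · intro ha
    obtain ⟨i, rfl⟩ := h a ha
    exact ⟨i, Finset.mem_preimage.2 ha, rfl⟩

private lemma lift_map68 {α β : Type} (f : α ↪ β) (K : SimpleGraph α) {k : ℕ} {s : Finset β}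
    (hs : (K.map f).IsNClique k s) (h : ∀ a ∈ s, ∃ i, f i = a) :
    ∃ t : Finset α, K.IsNClique k t ∧ t.map f = s := by
  obtain ⟨t, rfl⟩ := exists_map68 f s h
  refine ⟨t, ?_, rfl⟩
  rw [SimpleGraph.isNClique_iff] at hs ⊢
  obtain ⟨h1, h2⟩ := hs
  rw [Finset.card_map] at h2
  refine ⟨?_, h2⟩
  intro i hi j hj hij
  have h3 := h1 (Finset.mem_coe.2 (Finset.mem_map_of_mem f (Finset.mem_coe.1 hi)))
    (Finset.mem_coe.2 (Finset.mem_map_of_mem f (Finset.mem_coe.1 hj))) (fun h => hij (f.injective h))
  rwa [SimpleGraph.map_adj_apply] at h3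

private lemma lift_comap68 {α β : Type} (f : α ↪ β) (G : SimpleGraph β) {k : ℕ} {s : Finset β}
    (hs : G.IsNClique k s) (h : ∀ a ∈ s, ∃ i, f i = a) :
    ∃ t : Finset α, (G.comap f).IsNClique k t ∧ t.map f = s := by
  obtain ⟨t, rfl⟩ := exists_map68 f s h
  refine ⟨t, ?_, rfl⟩
  rw [SimpleGraph.isNClique_iff] at hs ⊢
  obtain ⟨h1, h2⟩ := hs
  rw [Finset.card_map] at h2
  refine ⟨?_, h2⟩
  intro i hi j hj hij
  exact h1 (Finset.mem_coe.2 (Finset.mem_map_of_mem f (Finset.mem_coe.1 hi)))
    (Finset.mem_coe.2 (Finset.mem_map_of_mem f (Finset.mem_coe.1 hj))) (fun h => hij (f.injective h))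

private lemma comap_clique68 {α β : Type} (f : α ↪ β) (G : SimpleGraph β) {k : ℕ} {t : Finset α}
    (ht : (G.comap f).IsNClique k t) : G.IsNClique k (t.map f) := by
  have h1 : ((G.comap f).map f).IsNClique k (t.map f) := ht.map
  exact h1.mono (SimpleGraph.map_comap_le f G)

theorem exists_transport {V W : Type} [Fintype V] [Fintype W] (G : SimpleGraph V) (w : V → ℝ)
    (hw : ∀ i, 0 ≤ w i) (S : Finset V) (hS : ∀ i, w i ≠ 0 → i ∈ S)
    (hc : S.card ≤ Fintype.card W) :
    ∃ (H : SimpleGraph W) (u : W → ℝ), (∀ a, 0 ≤ u a) ∧ (∀ k, PP H k u = PP G k w) ∧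
      ∀ m, 2 ≤ m → G.CliqueFree m → H.CliqueFree m := by
  classical
  obtain ⟨e⟩ : Nonempty (S ↪ W) := Function.Embedding.nonempty_of_card_le (by
    rw [Fintype.card_coe]
    exact hc)
  let ι : S ↪ V := Function.Embedding.subtype _
  have hι : ∀ a, (∃ i, ι i = a) ↔ a ∈ S := by
    intro a
    constructor
    · rintro ⟨i, rfl⟩
      exact i.2
    · intro ha
      exact ⟨⟨a, ha⟩, rfl⟩
  let K : SimpleGraph S := G.comap ι
  let u : W → ℝ := Function.extend e (fun i : S => w i) 0
  have hu1 : ∀ i : S, u (e i) = w i := fun i => e.injective.extend_apply _ _ _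
  have hu2 : ∀ a, (¬ ∃ i, e i = a) → u a = 0 := fun a ha => Function.extend_apply' _ _ _ ha
  refine ⟨K.map e, u, ?_, ?_, ?_⟩
  · intro a
    by_cases ha : ∃ i, e i = a
    · obtain ⟨i, rfl⟩ := ha
      rw [hu1]
      exact hw i
    · rw [hu2 a ha]
  · intro k
    have hA : ∑ t ∈ cl K k, ∏ i ∈ t, w (ι i) = PP G k w := by
      unfold PP
      refine Finset.sum_of_injOn (fun t => t.map ι) ?_ ?_ ?_ ?_
      · intro t _ t' _ h
        exact Finset.map_injective ι h
      · intro t ht
        exact Finset.mem_coe.2 (mem_cl.2 (comap_clique68 ι G (mem_cl.1 (Finset.mem_coe.1 ht))))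
      · intro s hs hns
        by_contra h0
        apply hns
        obtain ⟨t, ht, hts⟩ := lift_comap68 ι G (mem_cl.1 hs) (fun a ha => by
          rw [hι]
          exact hS a (Finset.prod_ne_zero_iff.1 h0 a ha))
        exact ⟨t, Finset.mem_coe.2 (mem_cl.2 ht), hts⟩
      · intro t _
        exact (Finset.prod_map t ι w).symm
    have hB : ∑ t ∈ cl K k, ∏ i ∈ t, w (ι i) = PP (K.map e) k u := by
      unfold PP
      refine Finset.sum_of_injOn (fun t => t.map e) ?_ ?_ ?_ ?_
      · intro t _ t' _ h
        exact Finset.map_injective e h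
      · intro t ht
        exact Finset.mem_coe.2 (mem_cl.2 (mem_cl.1 (Finset.mem_coe.1 ht)).map)
      · intro s hs hns
        by_contra h0
        apply hns
        obtain ⟨t, ht, hts⟩ := lift_map68 e K (mem_cl.1 hs) (fun a ha => by
          by_contra hcon
          exact Finset.prod_ne_zero_iff.1 h0 a ha (hu2 a hcon))
        exact ⟨t, Finset.mem_coe.2 (mem_cl.2 ht), hts⟩
      · intro t _
        change _ = ∏ a ∈ t.map e, u a
        rw [Finset.prod_map]
        exact Finset.prod_congr rfl fun i _ => (hu1 i).symm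
    rw [← hA, ← hB]
  · intro m hm hG s hs
    obtain ⟨t, ht, -⟩ := lift_map68 e K hs (fun a ha => by
      have h1 := hs.card_eq
      obtain ⟨b, hb, hba⟩ := Finset.exists_mem_ne (by omega : 1 < s.card) a
      have h2 := hs.isClique (Finset.mem_coe.2 ha) (Finset.mem_coe.2 hb) hba.symm
      obtain ⟨i, j, -, h3, -⟩ := (SimpleGraph.map_adj e K a b).1 h2
      exact ⟨i, h3⟩)
    exact hG _ (comap_clique68 ι G ht)

end Pool.Agent.Helper74.FW
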