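import Pool.Agent.Helper74.FW.Reduce
import Pool.Agent.Helper74.FW.Ramsey
import Pool.Agent.Helper74.FW.Transport

/-!
# Every f-vector is in the region
-/

set_option autoImplicit false

namespace Pool.Agent.Helper74.FW

open Finset

theorem mem_region (d : ℕ) (hd : 1 ≤ d) {V : Type} [Fintype V] (G : SimpleGraph V)
    (hG : G.CliqueFree (d + 1)) : (fun k : Fin d => ((cl G (k.1 + 1)).card : ℝ)) ∈ region d := by
  classical
  obtain ⟨w, hw, hP, hI⟩ := exists_reduce G d hd (fun _ => (1 : ℝ)) fun _ => zero_le_one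
  set S : Finset V := univ.filter fun i => w i ≠ 0 with hS
  have hc : S.card ≤ (2 * d).choose d := by
    by_contra hcon
    push Not at hcon
    rw [two_mul] at hcon
    rcases ramsey G d d S hcon.le with ⟨T, hTS, hT, hcl⟩ | ⟨T, hTS, hT, hin⟩
    · exact hG T ⟨hcl, hT⟩
    · have h1 := hI T (fun i hi => by
        have := hTS hi
        rw [hS, mem_filter] at this
        exact this.2) hin
      omega
  obtain ⟨H, u, hu, hPu, hH⟩ := exists_transport (W := Fin ((2 * d).choose d)) G w hw S
    (fun i hi => by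
      rw [hS, mem_filter]
      exact ⟨mem_univ i, hi⟩) (by rwa [Fintype.card_fin])
  refine ⟨H, u, hH _ (by omega) hG, hu, fun k => ?_⟩
  rw [hPu, hP _ (by omega)]
  simp [PP]

end Pool.Agent.Helper74.FW
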