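import Pool.Agent.Helper74.FW.Blow
import Pool.Agent.Helper74.FW.Attach
import Pool.Agent.Helper74.FW.Digits

/-!
# Block FW-PIE: a graph with exactly `r` cliques with `M` vertices and few vertices

PROOF. Let `V0 = Fin (M - 1)`, `n = fun _ => N`, `H = ⊤`, and let `L` be the list of `exists_boxes` for `K = univ` and `r`
(`∏ = N ^ (M - 1)`): `L.length ≤ r / N ^ (M - 1) + (M - 1) ≤ N + (M - 1)`. The graph is `att (blow ⊤ n) U` with `Z = Fin L.length`,
`U z = {x | x.2.1 < L.get z x.1}`: it has `(M - 1) * N + L.length ≤ M * (N + 1)` vertices. By `card_att`, `card_blow`, `card_box` the number of cliques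
with `k + 1` vertices is `NP ⊤ (k + 1) n + ∑ z, NP ⊤ k (L.get z)`. For `k + 1 = M`: `NP ⊤ M n = 0` (`cl ⊤ M = ∅`, there are only `M - 1`
vertices) and `NP ⊤ (M - 1) b = ∏ i, b i` (`cl ⊤ (M - 1) = {univ}`), so the number is `r`. For `k + 1 = M + 1` it is `0`.
(`Fin.sum_univ_get` or `List.sum_ofFn` for the sum over `Fin L.length`.)
-/

set_option autoImplicit false

namespace Pool.Agent.Helper74.FW

open Finset

/-- The number of cliques of the blow-up with new vertices attached to boxes. -/
theorem card_boxes {V : Type} [Fintype V] (H : SimpleGraph V) (n : V → ℕ) (L : List (V → ℕ))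
    (hL : ∀ b ∈ L, ∀ i, b i ≤ n i) (k : ℕ) :
    (cl (att (blow H n) fun z : Fin L.length => {x | x.2.1 < L.get z x.1}) (k + 1)).card =
      NP H (k + 1) n + (L.map fun b => NP H k b).sum := by
  classical
  rw [card_att, card_blow]
  congr 1
  have h1 : ∀ z : Fin L.length, ((cl (blow H n) k).filter fun s => ∀ x ∈ s,
      x ∈ {x : Σ i : V, Fin (n i) | x.2.1 < L.get z x.1}).card = NP H k (L.get z) := by
    intro z
    rw [← card_box H n (L.get z) (hL _ (List.get_mem _ _)) k]
    congr
  have h2 : (L.map fun b => NP H k b).sum = ∑ z : Fin L.length, NP H k (L.get z) := by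
    conv_lhs => rw [← List.ofFn_get L, List.map_ofFn]
    rw [List.sum_ofFn]
    rfl
  rw [h2]
  refine Finset.sum_congr rfl fun z _ => ?_
  rw [← h1 z]
  congr

private theorem NP_top_zero (m k : ℕ) (h : m < k) (b : Fin m → ℕ) :
    NP (⊤ : SimpleGraph (Fin m)) k b = 0 := by
  have h1 : cl (⊤ : SimpleGraph (Fin m)) k = ∅ := by
    rw [Finset.eq_empty_iff_forall_notMem]
    intro s hs
    rw [mem_cl, SimpleGraph.isNClique_iff] at hs
    have h2 := Finset.card_le_univ s
    rw [Fintype.card_fin, hs.2] at h2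
    omega
  unfold NP
  rw [h1, Finset.sum_empty]

private theorem NP_top_self (m : ℕ) (b : Fin m → ℕ) :
    NP (⊤ : SimpleGraph (Fin m)) m b = ∏ i, b i := by
  have h1 : cl (⊤ : SimpleGraph (Fin m)) m = {univ} := by
    ext s
    rw [mem_cl, SimpleGraph.isNClique_iff, Finset.mem_singleton]
    constructor
    · rintro ⟨-, h⟩
      apply Finset.eq_univ_of_card
      rw [h, Fintype.card_fin]
    · rintro rfl
      refine ⟨?_, by simp⟩
      intro x _ y _ hxy
      exact hxy
  unfold NP
  rw [h1, Finset.sum_singleton]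

theorem exists_piece (M N r : ℕ) (hM : 1 ≤ M) (hN : 1 ≤ N) (hr : r ≤ N ^ M) :
    ∃ (V : Type) (_ : Fintype V) (G : SimpleGraph V), G.CliqueFree (M + 1) ∧ (cl G M).card = r ∧
      Fintype.card V ≤ M * (N + 1) := by
  classical
  obtain ⟨m, rfl⟩ : ∃ m, M = m + 1 := ⟨M - 1, by omega⟩
  obtain ⟨L, hlen, hL, hsum⟩ := exists_boxes (univ : Finset (Fin m)) (fun _ => N) (fun _ _ => hN) r
  have hprod : ∏ i ∈ (univ : Finset (Fin m)), (fun _ : Fin m => N) i = N ^ m := by
    rw [Finset.prod_const, Finset.card_univ, Fintype.card_fin]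
  rw [hprod, Finset.card_univ, Fintype.card_fin] at hlen
  have hL' : ∀ b ∈ L, ∀ i, b i ≤ (fun _ : Fin m => N) i := fun b hb => (hL b hb).1
  refine ⟨(Σ _ : Fin m, Fin N) ⊕ Fin L.length, inferInstance,
    att (blow (⊤ : SimpleGraph (Fin m)) fun _ => N) fun z : Fin L.length => {x | x.2.1 < L.get z x.1},
    ?_, ?_, ?_⟩
  · rw [cliqueFree_iff, card_boxes _ _ L hL', NP_top_zero _ _ (by omega), zero_add]
    apply List.sum_eq_zero
    intro x hx
    rw [List.mem_map] at hx
    obtain ⟨b, -, rfl⟩ := hx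
    exact NP_top_zero _ _ (by omega) b
  · rw [card_boxes _ _ L hL', NP_top_zero _ _ (by omega), zero_add]
    simp only [NP_top_self]
    exact hsum
  · rw [Fintype.card_sum, Fintype.card_sigma, Fintype.card_fin]
    simp only [Fintype.card_fin, Finset.sum_const, Finset.card_univ, smul_eq_mul]
    have h1 : r / N ^ m ≤ N := by
      apply Nat.div_le_of_le_mul
      rw [← pow_succ]
      exact hr
    have h2 : (m + 1) * (N + 1) = m * N + N + m + 1 := by ring
    omega

end Pool.Agent.Helper74.FW
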