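import Pool.Agent.Helper74.FW.Basic

/-!
# Block FW-RED: weights with small independent support

PROOF of `exists_reduce`, by strong induction on the number of vertices with `w i ≠ 0`. If there is no independent set `I` with more
than `d` vertices in the support of `w`, take `w' = w`. Otherwise (after passing to a subset) `I.card = d + 1`. For `i ∈ I` let `B i k` be the sum over
the cliques `s ∋ i` with `k` vertices of `∏ j ∈ s.erase i, w j` (`k = 1, ..., d`). The `d + 1` vectors `B i ∈ ℝ ^ d` are linearly dependent: there is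
`v ≠ 0` supported on `I` with `∑ i ∈ I, v i * B i k = 0` for `k = 1, ..., d` (`exists_nontrivial_relation_of_finrank_lt_card`, or `Fintype.linearIndependent`
lemmas). As `B i 1 = 1` we have `∑ v i = 0`, so `v i < 0` for some `i`. Let `t` be the minimum of `w i / (- v i)` over the `i ∈ I` with `v i < 0`
(`Finset.exists_min_image`). Then `w' = w + t v ≥ 0`, one more coordinate is `0` (at the minimum), the support does not
grow, and `PP G k w' = PP G k w + t * ∑ i ∈ I, v i * B i k = PP G k w` for `1 ≤ k ≤ d`: for a clique `s` at most one element of `s` is in `I`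
(`I` is independent), so `∏ i ∈ s, (w i + t v i) = ∏ i ∈ s, w i + ∑ i ∈ s ∩ I, t v i ∏ j ∈ s.erase i, w j`. `PP G 0 = 1`.
(The case of two vertices is in `Pool/Agent/Helper74/FV/Up.lean`, `PP_update`.)
-/

set_option autoImplicit false

namespace Pool.Agent.Helper74.FW

open Finset

section aux6

variable {V : Type} [Fintype V]

open Classical in
private noncomputable def BB6 (G : SimpleGraph V) (k : ℕ) (w : V → ℝ) (i : V) : ℝ :=
  ∑ s ∈ cl G k, if i ∈ s then ∏ j ∈ s.erase i, w j else 0

private lemma BB_one6 (G : SimpleGraph V) (w : V → ℝ) (i : V) : BB6 G 1 w i = 1 := by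
  classical
  unfold BB6
  rw [Finset.sum_eq_single {i}]
  · rw [if_pos (Finset.mem_singleton_self i)]
    simp
  · intro s hs hne
    rw [mem_cl] at hs
    rw [if_neg]
    intro hi
    obtain ⟨a, ha⟩ := Finset.card_eq_one.1 hs.card_eq
    subst ha
    rw [Finset.mem_singleton] at hi
    subst hi
    exact hne rfl
  · intro h
    exfalso
    apply h
    rw [mem_cl]
    refine ⟨?_, Finset.card_singleton i⟩
    simp

private lemma PP_add6 (G : SimpleGraph V) (k : ℕ) (w v : V → ℝ) (t : ℝ) (I : Finset V)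
    (hv : ∀ i, i ∉ I → v i = 0) (hI : ∀ i ∈ I, ∀ j ∈ I, ¬ G.Adj i j) :
    PP G k (fun i => w i + t * v i) = PP G k w + t * ∑ i ∈ I, v i * BB6 G k w i := by
  classical
  have h1 : t * ∑ i ∈ I, v i * BB6 G k w i =
      ∑ s ∈ cl G k, t * ∑ i ∈ I, v i * (if i ∈ s then ∏ j ∈ s.erase i, w j else 0) := by
    rw [← Finset.mul_sum]
    congr 1
    unfold BB6
    rw [Finset.sum_comm]
    refine Finset.sum_congr rfl fun i _ => ?_
    rw [Finset.mul_sum]
  rw [h1]
  unfold PP
  rw [← Finset.sum_add_distrib]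
  refine Finset.sum_congr rfl fun s hs => ?_
  rw [mem_cl] at hs
  by_cases hex : ∃ a ∈ s, a ∈ I
  · obtain ⟨a, has, haI⟩ := hex
    have huniq : ∀ b ∈ s, b ∈ I → b = a := by
      intro b hbs hbI
      by_contra hne
      exact hI b hbI a haI (hs.isClique hbs has hne)
    rw [Finset.sum_eq_single a]
    · rw [if_pos has, ← Finset.mul_prod_erase s _ has, ← Finset.mul_prod_erase s w has]
      have h2 : ∏ x ∈ s.erase a, (w x + t * v x) = ∏ x ∈ s.erase a, w x := by
        refine Finset.prod_congr rfl fun x hx => ?_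
        rw [Finset.mem_erase] at hx
        rw [hv x fun hxI => hx.1 (huniq x hx.2 hxI), mul_zero, add_zero]
      rw [h2]
      ring
    · intro b hbI hba
      rw [if_neg, mul_zero]
      intro hbs
      exact hba (huniq b hbs hbI)
    · intro h
      exact absurd haI h
  · push Not at hex
    rw [Finset.sum_eq_zero, mul_zero, add_zero]
    · refine Finset.prod_congr rfl fun x hx => ?_
      beta_reduce
      rw [hv x (hex x hx), mul_zero, add_zero]
    · intro i hi
      rw [if_neg, mul_zero]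
      intro his
      exact hex i his hi

private lemma relation6 (G : SimpleGraph V) (d : ℕ) (hd : 1 ≤ d) (w : V → ℝ) (I : Finset V)
    (hI : I.card = d + 1) : ∃ v : V → ℝ, (∀ i, i ∉ I → v i = 0) ∧ (∃ i ∈ I, v i < 0) ∧
      ∀ k, 1 ≤ k → k ≤ d → ∑ i ∈ I, v i * BB6 G k w i = 0 := by
  classical
  have hdep : ¬ LinearIndependent ℝ (fun (i : I) (k : Fin d) => BB6 G (k.1 + 1) w i) := by
    intro h
    have h1 := h.fintype_card_le_finrank
    rw [Fintype.card_coe, hI, Module.finrank_fin_fun] at h1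
    omega
  rw [Fintype.not_linearIndependent_iff] at hdep
  obtain ⟨g, hg, i₀, hi₀⟩ := hdep
  let v : V → ℝ := fun i => if h : i ∈ I then g ⟨i, h⟩ else 0
  have hv1 : ∀ (i : V) (h : i ∈ I), v i = g ⟨i, h⟩ := fun i h => dif_pos h
  have hv0 : ∀ i, i ∉ I → v i = 0 := fun i h => dif_neg h
  have hrel : ∀ k, 1 ≤ k → k ≤ d → ∑ i ∈ I, v i * BB6 G k w i = 0 := by
    intro k hk1 hkd
    have h1 := congrFun hg ⟨k - 1, by omega⟩
    rw [Finset.sum_apply, Pi.zero_apply] at h1
    rw [← Finset.sum_coe_sort I (fun i => v i * BB6 G k w i), ← h1]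
    refine Finset.sum_congr rfl fun i _ => ?_
    rw [Pi.smul_apply, smul_eq_mul, hv1 i.1 i.2]
    simp only
    rw [Nat.sub_add_cancel hk1]
  refine ⟨v, hv0, ?_, hrel⟩
  by_contra hcon
  push Not at hcon
  have h1 := hrel 1 le_rfl hd
  have h2 : ∑ i ∈ I, v i = 0 := by
    rw [← h1]
    refine Finset.sum_congr rfl fun i _ => ?_
    rw [BB_one6, mul_one]
  rw [Finset.sum_eq_zero_iff_of_nonneg hcon] at h2
  apply hi₀
  rw [← h2 i₀.1 i₀.2, hv1 i₀.1 i₀.2]

end aux6

theorem exists_reduce {V : Type} [Fintype V] (G : SimpleGraph V) (d : ℕ) (hd : 1 ≤ d) (w : V → ℝ)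
    (hw : ∀ i, 0 ≤ w i) :
    ∃ w' : V → ℝ, (∀ i, 0 ≤ w' i) ∧ (∀ k, k ≤ d → PP G k w' = PP G k w) ∧
      ∀ I : Finset V, (∀ i ∈ I, w' i ≠ 0) → (∀ i ∈ I, ∀ j ∈ I, ¬ G.Adj i j) → I.card ≤ d := by
  classical
  obtain ⟨n, hn⟩ : ∃ n, n = (univ.filter fun i => w i ≠ 0).card := ⟨_, rfl⟩
  induction n using Nat.strong_induction_on generalizing w with
  | _ n ih =>
    by_cases hall : ∀ I : Finset V, (∀ i ∈ I, w i ≠ 0) → (∀ i ∈ I, ∀ j ∈ I, ¬ G.Adj i j) →
        I.card ≤ d
    · exact ⟨w, hw, fun _ _ => rfl, hall⟩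
    push Not at hall
    obtain ⟨I₁, hs₁, hi₁, hc₁⟩ := hall
    obtain ⟨I, hII, hc⟩ := Finset.exists_subset_card_eq (show d + 1 ≤ I₁.card by omega)
    have hsup : ∀ i ∈ I, w i ≠ 0 := fun i hi => hs₁ i (hII hi)
    have hind : ∀ i ∈ I, ∀ j ∈ I, ¬ G.Adj i j := fun i hi j hj => hi₁ i (hII hi) j (hII hj)
    obtain ⟨v, hv0, ⟨i₁, hi₁I, hi₁v⟩, hrel⟩ := relation6 G d hd w I hc
    obtain ⟨i₀, hi₀, hmin⟩ := Finset.exists_min_image (I.filter fun i => v i < 0)
      (fun i => w i / (- v i)) ⟨i₁, Finset.mem_filter.2 ⟨hi₁I, hi₁v⟩⟩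
    rw [Finset.mem_filter] at hi₀
    obtain ⟨t, ht⟩ : ∃ t, t = w i₀ / (- v i₀) := ⟨_, rfl⟩
    have ht0 : 0 ≤ t := by
      rw [ht]
      exact div_nonneg (hw _) (by linarith [hi₀.2])
    have hw' : ∀ i, 0 ≤ w i + t * v i := by
      intro i
      by_cases hvi : v i < 0
      · have hiI : i ∈ I := by
          by_contra h
          rw [hv0 i h] at hvi
          exact lt_irrefl _ hvi
        have h1 := hmin i (Finset.mem_filter.2 ⟨hiI, hvi⟩)
        rw [← ht, le_div_iff₀ (by linarith)] at h1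
        linarith
      · push Not at hvi
        exact add_nonneg (hw i) (mul_nonneg ht0 hvi)
    have hzero : w i₀ + t * v i₀ = 0 := by
      rw [ht]
      have h1 : v i₀ ≠ 0 := ne_of_lt hi₀.2
      field_simp
      ring
    have hlt : (univ.filter fun i => w i + t * v i ≠ 0).card < n := by
      rw [hn]
      apply Finset.card_lt_card
      rw [Finset.ssubset_iff_of_subset]
      · refine ⟨i₀, ?_, ?_⟩
        · rw [Finset.mem_filter]
          exact ⟨Finset.mem_univ _, hsup i₀ hi₀.1⟩
        · rw [Finset.mem_filter]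
          exact fun h => h.2 hzero
      · intro i hi
        rw [Finset.mem_filter] at hi ⊢
        refine ⟨Finset.mem_univ _, ?_⟩
        by_cases hiI : i ∈ I
        · exact hsup i hiI
        · have h1 := hi.2
          rw [hv0 i hiI, mul_zero, add_zero] at h1
          exact h1
    obtain ⟨w', h1, h2, h3⟩ := ih _ hlt (fun i => w i + t * v i) hw' rfl
    refine ⟨w', h1, ?_, h3⟩
    intro k hk
    rw [h2 k hk]
    rcases Nat.eq_zero_or_pos k with hk0 | hk0
    · subst hk0
      rw [PP_zero, PP_zero]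
    · rw [PP_add6 G k w v t I hv0 hind, hrel k hk0 hk, mul_zero, add_zero]

end Pool.Agent.Helper74.FW
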